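import Pool.Agent.FTA.Graph

/-!
# Fault tolerance of the block graph
-/

namespace Pool.Agent.FTA

open Pool.Agent.Helper68 Pool.Agent.FT6

variable {k t N m : ℕ}

/-- the cell of a full word -/
noncomputable def cellOf (k t : ℕ) (x : TV k) : Fin k × List (Fin k) :=
  open Classical in
  if h : ∃ ξ ∈ cells k t, mem k t ξ x.1 = x then h.choose else (x.1, [])

theorem cellOf_spec (ht : 2 ≤ t) {x : TV k} (hx : x ∈ blk k t)
    (hl : x.2.2.length = x.2.1.2) : cellOf k t x ∈ cells k t ∧ mem k t (cellOf k t x) x.1 = x := by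
  have h := exists_cell' ht hx hl
  unfold cellOf
  rw [dif_pos h]
  exact h.choose_spec

/-- the bottom reached from `x` by the letter `i` -/
def bot (x : TV k) (i : Fin k) : TV k :=
  (x.1, x.2.1, List.replicate (x.2.1.2 - x.2.2.length) i ++ x.2.2)

/-- the inner vertices of the path number `i` of `x` -/
noncomputable def QB (k t : ℕ) (i : Fin k) (x : TV k) : Set (TV k) :=
  if i = x.1 then {s | s.1 = x.1 ∧ s.2.1 = x.2.1 ∧ s.2.2 <:+ x.2.2 ∧ s.2.2 ≠ x.2.2}
  else {s | ∃ j, 1 ≤ j ∧ j ≤ x.2.1.2 - x.2.2.length ∧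
      s = (x.1, x.2.1, List.replicate j i ++ x.2.2)} ∪
    {s | s.1 = i ∧ s.2.1 = (mem k t (cellOf k t (bot x i)) i).2.1 ∧
      s.2.2 <:+ (mem k t (cellOf k t (bot x i)) i).2.2}

/-- proper ancestor -/
def ancB (x y : TV k) : Prop := x.1 = y.1 ∧ x.2.1 = y.2.1 ∧ x.2.2 <:+ y.2.2 ∧ x.2.2 ≠ y.2.2

theorem ancB_len {x y : TV k} (h : ancB x y) : x.2.2.length < y.2.2.length := by
  obtain ⟨-, -, h1, h2⟩ := h
  rcases h1.length_le.lt_or_eq with h3 | h3
  · exact h3
  · exact absurd (h1.eq_of_length h3) h2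

theorem ancB_trans {x y z : TV k} (h : ancB x y) (h' : ancB y z) : ancB x z := by
  refine ⟨h.1.trans h'.1, h.2.1.trans h'.2.1, h.2.2.1.trans h'.2.2.1, ?_⟩
  intro h3
  have h1 := ancB_len h
  have h2 := ancB_len h'
  rw [h3] at h1
  omega

theorem QB_spec {i : Fin k} {x s : TV k} (c0 : Fin k) (h : s ∈ QB k t i x) :
    (i = s.1 ∧ ¬ ancB x s) ∨ (i = s.2.2.headD c0 ∧ i ≠ s.1 ∧ ancB x s) := by
  unfold QB at h
  split_ifs at h with hi
  · left
    obtain ⟨h1, h2, h3, h4⟩ := h
    refine ⟨hi.trans h1.symm, fun h5 => ?_⟩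
    have h6 := ancB_len h5
    have h7 := h3.length_le
    omega
  · rcases h with ⟨j, hj1, hj2, rfl⟩ | ⟨h1, h2, h3⟩
    · right
      obtain ⟨j', rfl⟩ : ∃ j', j = j' + 1 := ⟨j - 1, by omega⟩
      refine ⟨by simp [List.replicate_succ], hi, rfl, rfl, List.suffix_append _ _, ?_⟩
      intro h5
      have := congrArg List.length h5
      simp at this
    · left
      refine ⟨h1.symm, fun h5 => ?_⟩
      exact hi (h1.symm.trans h5.1.symm)

theorem QB_own {x s : TV k} (h : s ∈ QB k t x.1 x) : ancB s x := by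
  unfold QB at h
  rw [if_pos rfl] at h
  exact ⟨h.1, h.2.1, h.2.2.1, h.2.2.2⟩

section conn

variable {S : Finset (Fin k ⊕ XX k t N m)}

/-- the vertex of the block `β` -/
abbrev vt (k t N m : ℕ) (β : Fin N) (x : TV k) (hx : x ∈ blk k t) : Fin k ⊕ XX k t N m :=
  .inr (.inl (β, ⟨x, hx⟩))

theorem conn_up (β : Fin N) {a : Fin k} {κh : Bool × ℕ} : ∀ (l : List (Fin k))
    (hx : ((a, κh, l) : TV k) ∈ blk k t),
    (∀ l' (hs : l' <:+ l), vt k t N m β (a, κh, l') (blk_suffix hx hs) ∉ S) → .inl a ∉ S →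
    Conn (gGraph k t N m) S (l.length + 1) (vt k t N m β (a, κh, l) hx) (.inl a)
  | [], hx, h, ha => by
    have h1 := h [] (List.suffix_refl _)
    exact (Conn.refl ha).cons h1 (Or.inr ⟨rfl, rfl⟩)
  | b :: l, hx, h, ha => by
    have hx' : ((a, κh, l) : TV k) ∈ blk k t := blk_suffix hx (List.suffix_cons _ _)
    have h2 := conn_up β l hx' (fun l' hs => h l' (hs.trans (List.suffix_cons _ _))) ha
    have h1 := h (b :: l) (List.suffix_refl _)
    refine h2.cons h1 (Or.inr ?_)
    exact ⟨rfl, Or.inl ⟨rfl, rfl, b, rfl⟩⟩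

theorem conn_down (β : Fin N) {a b : Fin k} {κh : Bool × ℕ} {l : List (Fin k)}
    (hx : ((a, κh, l) : TV k) ∈ blk k t) (hb : b ≠ a) : ∀ (n : ℕ) (hn : l.length + n ≤ κh.2),
    (∀ j (hj : j ≤ n), vt k t N m β (a, κh, List.replicate j b ++ l)
      (blk_replicate hx hb (by omega)) ∉ S) →
    Conn (gGraph k t N m) S n (vt k t N m β (a, κh, l) hx)
      (vt k t N m β (a, κh, List.replicate n b ++ l) (blk_replicate hx hb hn))
  | 0, hn, h => Conn.refl (h 0 (le_refl _))
  | n + 1, hn, h => by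
    have h1 := conn_down β hx hb n (by omega) (fun j hj => h j (by omega))
    have h2 := h (n + 1) (le_refl _)
    have h3 : Conn (gGraph k t N m) S 1
        (vt k t N m β (a, κh, List.replicate n b ++ l) (blk_replicate hx hb (by omega)))
        (vt k t N m β (a, κh, List.replicate (n + 1) b ++ l) (blk_replicate hx hb hn)) := by
      refine (Conn.refl h2).cons (h n (by omega)) (Or.inr ?_)
      exact ⟨rfl, Or.inr (Or.inl ⟨rfl, rfl, b, by simp [List.replicate_succ]⟩)⟩
    exact Conn.trans' h1 h3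

theorem conn_path (ht : 2 ≤ t) (β : Fin N) {i : Fin k} {x : TV k} (hx : x ∈ blk k t)
    (hxS : vt k t N m β x hx ∉ S) (hi : .inl i ∉ S)
    (hQ : ∀ s (hs : s ∈ blk k t), s ∈ QB k t i x → vt k t N m β s hs ∉ S) :
    Conn (gGraph k t N m) S (t + 1) (vt k t N m β x hx) (.inl i) := by
  obtain ⟨a, ⟨κ, h⟩, l⟩ := x
  have hx0 := mem_blk'.mp hx
  have hht : h + 1 ≤ t := by
    rcases hx0.1 with h1 | h1
    · omega
    · omega
  by_cases hia : i = a
  · subst hia
    refine (conn_up β l hx ?_ hi).mono (by omega)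
    intro l' hs
    by_cases hl' : l' = l
    · subst hl'
      exact hxS
    · apply hQ
      unfold QB
      rw [if_pos rfl]
      exact ⟨rfl, rfl, hs, hl'⟩
  · have hlh : l.length + (h - l.length) ≤ h := by omega
    have hdown := conn_down (S := S) (m := m) β hx hia (h - l.length) hlh (by
      intro j hj
      rcases Nat.eq_zero_or_pos j with rfl | hj0
      · exact hxS
      · apply hQ
        unfold QB
        rw [if_neg hia]
        left
        exact ⟨j, hj0, hj, rfl⟩)
    have hbb : bot ((a, (κ, h), l) : TV k) i ∈ blk k t := blk_replicate hx hia hlh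
    have hcell := cellOf_spec ht hbb (by
      simp only [bot, List.length_append, List.length_replicate]
      omega)
    obtain ⟨hc1, hc2⟩ := hcell
    have hc3 := (mem_cells' ht).mp hc1
    have hmb := mem_mem_blk ht hc1 i
    -- going up in the other tree
    have hup := conn_up (S := S) (m := m) β (mw k t (cellOf k t (bot ((a, (κ, h), l) : TV k) i)) i)
      hmb (by
        intro l' hs
        apply hQ
        unfold QB
        rw [if_neg hia]
        right
        exact ⟨rfl, rfl, hs⟩) hi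
    have hcr : Conn (gGraph k t N m) S 1 (vt k t N m β (bot ((a, (κ, h), l) : TV k) i) hbb)
        (vt k t N m β (mem k t (cellOf k t (bot ((a, (κ, h), l) : TV k) i)) i) hmb) := by
      have hS1 : vt k t N m β (mem k t (cellOf k t (bot ((a, (κ, h), l) : TV k) i)) i) hmb ∉ S := by
        apply hQ
        unfold QB
        rw [if_neg hia]
        right
        exact ⟨rfl, rfl, List.suffix_refl _⟩
      have hS2 : vt k t N m β (bot ((a, (κ, h), l) : TV k) i) hbb ∉ S := by
        rcases Nat.eq_zero_or_pos (h - l.length) with hz | hz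
        · have hbx : bot ((a, (κ, h), l) : TV k) i = (a, (κ, h), l) := by
            simp [bot, hz]
          simp only [hbx]
          exact hxS
        · apply hQ
          unfold QB
          rw [if_neg hia]
          left
          exact ⟨h - l.length, hz, le_refl _, rfl⟩
      refine (Conn.refl hS1).cons hS2 (Or.inr ?_)
      refine ⟨rfl, Or.inr (Or.inr ⟨_, hc1, a, i, fun h => hia h.symm, hc2.symm, rfl⟩)⟩
    refine (Conn.trans' hdown (Conn.trans' hcr hup)).mono ?_
    have hmw : mw k t (cellOf k t (bot ((a, (κ, h), l) : TV k) i)) a =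
        List.replicate (h - l.length) i ++ l := by
      have := congrArg (fun z : TV k => z.2.2) hc2
      exact this
    rcases Nat.eq_zero_or_pos (h - l.length) with hz | hz
    · have := mw_length_le hc3.1 i
      omega
    · have := cell_height hc3.1 hc3.2 hz hmw
      omega

theorem conn_own (β : Fin N) {x : TV k} (hx : x ∈ blk k t)
    (hxS : vt k t N m β x hx ∉ S) (hi : .inl x.1 ∉ S)
    (hQ : ∀ s (hs : s ∈ blk k t), s ∈ QB k t x.1 x → vt k t N m β s hs ∉ S) :
    Conn (gGraph k t N m) S t (vt k t N m β x hx) (.inl x.1) := by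
  obtain ⟨a, ⟨κ, h⟩, l⟩ := x
  have hx0 := mem_blk'.mp hx
  have hht : h + 1 ≤ t := by
    rcases hx0.1 with h1 | h1
    · omega
    · omega
  refine (conn_up β l hx ?_ hi).mono (by omega)
  intro l' hs
  by_cases hl' : l' = l
  · subst hl'
    exact hxS
  · apply hQ
    unfold QB
    rw [if_pos rfl]
    exact ⟨rfl, rfl, hs, hl'⟩

end conn

theorem gGraph_conn (hk : 1 ≤ k) (ht : 2 ≤ t) (S : Finset (Fin k ⊕ XX k t N m))
    (hS : S.card = k - 1) (u v : Fin k ⊕ XX k t N m) (hu : u ∉ S) (hv : v ∉ S) :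
    Conn (gGraph k t N m) S (2 * (t + 1)) u v := by
  classical
  let c0 : Fin k := ⟨0, by omega⟩
  refine frame_conn (G := gGraph k t N m) (r := t + 1)
    (Q := fun i w => match w with
      | .inl y => {z | ∃ s, ∃ hs : s ∈ blk k t, s ∈ QB k t i y.2.1 ∧ z = .inl (y.1, ⟨s, hs⟩)}
      | .inr _ => ∅)
    (col := fun w => match w with
      | .inl y => y.2.1.1
      | .inr _ => c0)
    (lam := fun w => match w with
      | .inl y => y.2.1.2.2.headD c0
      | .inr _ => c0)
    (anc := fun w w' => match w, w' with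
      | .inl y, .inl y' => y.1 = y'.1 ∧ ancB y.2.1 y'.2.1
      | _, _ => False)
    hk (by omega) (fun i j h => h) ?_ ?_ ?_ ?_ ?_ ?_ ?_ S hS u v hu hv
  · rintro i (y | e) s hs
    · obtain ⟨s', hs', h1, rfl⟩ := hs
      rcases QB_spec c0 h1 with ⟨h2, h3⟩ | ⟨h2, h3, h4⟩
      · exact Or.inl ⟨h2, fun h => h3 h.2⟩
      · exact Or.inr ⟨h2, h3, rfl, h4⟩
    · exact absurd hs (by simp)
  · rintro (x | e) (y | f) h
    · exact h.2.1
    · exact h.elim
    · exact h.elim
    · exact h.elim
  · rintro (y | e) s hs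
    · obtain ⟨s', hs', h1, rfl⟩ := hs
      exact ⟨rfl, QB_own h1⟩
    · exact absurd hs (by simp)
  · rintro (x | e) (y | f) (z | g) h h'
    · exact ⟨h.1.trans h'.1, ancB_trans h.2 h'.2⟩
    all_goals first | exact h.elim | exact h'.elim
  · rintro (x | e) h
    · exact absurd (ancB_len h.2) (lt_irrefl _)
    · exact h
  · rintro S i (⟨β, x, hx⟩ | e) hu hi hQ
    · exact conn_path ht β hx hu hi (fun s hs hsQ => hQ _ ⟨s, hs, hsQ, rfl⟩)
    · exact ((Conn.refl hi).cons hu (Or.inr trivial)).mono (by omega)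
  · rintro S (⟨β, x, hx⟩ | e) hu hi hQ
    · exact (conn_own β hx hu hi (fun s hs hsQ => hQ _ ⟨s, hs, hsQ, rfl⟩)).mono (by omega)
    · exact ((Conn.refl hi).cons hu (Or.inr trivial)).mono (by omega)

end Pool.Agent.FTA
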