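import Pool.Agent.FTA.Mem

/-!
# Counting the vertices of a block and its cells
-/

namespace Pool.Agent.FTA

variable {k t : ℕ}

theorem card_wd (a : Fin k) (j : ℕ) : (wd k a j).card = (k - 1) ^ j := by
  induction j with
  | zero => simp [wd]
  | succ j ih =>
    unfold wd
    rw [Finset.card_image_of_injective, Finset.card_product, ih, Finset.card_erase_of_mem
      (Finset.mem_univ _), Finset.card_univ, Fintype.card_fin]
    · ring
    · rintro ⟨b, l⟩ ⟨b', l'⟩ h
      simp only [List.cons.injEq] at h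
      rw [h.1, h.2]

theorem card_tv (a : Fin k) (h : ℕ) : (tv k a h).card = Bs k h := by
  unfold tv Bs
  rw [Finset.card_biUnion]
  · exact Finset.sum_congr rfl fun j _ => card_wd a j
  · intro i _ j _ hij
    rw [Function.onFun, Finset.disjoint_left]
    intro l h1 h2
    rw [mem_wd'] at h1 h2
    exact hij (h1.1.symm.trans h2.1)

theorem card_cells : (cells k t).card = k * Bs k (t - 2) := by
  unfold cells
  rw [Finset.card_biUnion]
  · rw [Finset.sum_congr rfl (g := fun _ => Bs k (t - 2))]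
    · simp
    · intro c _
      rw [Finset.card_image_of_injective, card_tv]
      intro q q' h
      simpa using h
  · intro c _ c' _ hc
    rw [Function.onFun, Finset.disjoint_left]
    intro x h1 h2
    rw [Finset.mem_image] at h1 h2
    obtain ⟨q, -, rfl⟩ := h1
    obtain ⟨q', -, h3⟩ := h2
    apply hc
    simp only [Prod.mk.injEq] at h3
    exact h3.1.symm

theorem card_blk : (blk k t).card = k * (∑ h ∈ Finset.range (t - 1), Bs k h +
    ∑ h ∈ Finset.range (t - 1), Bs k (h + 1)) := by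
  unfold blk
  rw [Finset.card_biUnion]
  · rw [Finset.sum_congr rfl (g := fun x => Bs k x.2.2)]
    · rw [Finset.sum_product]
      simp only [Finset.sum_const, Finset.card_univ, Fintype.card_fin, smul_eq_mul]
      congr 1
      unfold kinds
      rw [Finset.sum_union, Finset.sum_image, Finset.sum_image]
      · intro x _ y _ h
        simpa using h
      · intro x _ y _ h
        simpa using h
      · rw [Finset.disjoint_left]
        intro x h1 h2
        rw [Finset.mem_image] at h1 h2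
        obtain ⟨q, -, rfl⟩ := h1
        obtain ⟨q', -, h3⟩ := h2
        simp at h3
    · rintro ⟨a, κ, h⟩ _
      rw [Finset.card_image_of_injective, card_tv]
      intro q q' h
      simpa using h
  · rintro ⟨a, κh⟩ _ ⟨a', κh'⟩ _ hne
    rw [Function.onFun, Finset.disjoint_left]
    intro x h1 h2
    rw [Finset.mem_image] at h1 h2
    obtain ⟨q, -, rfl⟩ := h1
    obtain ⟨q', -, h3⟩ := h2
    apply hne
    simp only [Prod.mk.injEq] at h3 ⊢
    exact ⟨h3.1.symm, h3.2.1.symm⟩

theorem Bs_geom (j s : ℕ) : j * Bs (j + 2) s + 1 = (j + 1) ^ (s + 1) := by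
  induction s with
  | zero => simp [Bs]
  | succ s ih =>
    have h1 : Bs (j + 2) (s + 1) = Bs (j + 2) s + (j + 1) ^ (s + 1) := by
      unfold Bs
      rw [Finset.sum_range_succ]
      rfl
    rw [h1, mul_add, pow_succ (j + 1) (s + 1)]
    calc j * Bs (j + 2) s + j * (j + 1) ^ (s + 1) + 1
        = (j * Bs (j + 2) s + 1) + j * (j + 1) ^ (s + 1) := by ring
      _ = _ := by rw [ih]; ring

theorem sum_identity (j T : ℕ) : j * (∑ h ∈ Finset.range (T + 1), Bs (j + 2) h +
    ∑ h ∈ Finset.range (T + 1), Bs (j + 2) (h + 1)) + 2 * (T + 1) =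
    (j + 2) * (j + 1) * Bs (j + 2) T := by
  induction T with
  | zero =>
    simp [Bs, Finset.sum_range_succ]
    ring
  | succ T ih =>
    rw [Finset.sum_range_succ, Finset.sum_range_succ _ (T + 1)]
    have h1 := Bs_geom j (T + 1)
    have h2 := Bs_geom j (T + 1 + 1)
    have h3 : Bs (j + 2) (T + 1) = Bs (j + 2) T + (j + 1) ^ (T + 1) := by
      unfold Bs
      rw [Finset.sum_range_succ _ (T + 1)]
      rfl
    have h4 : (j + 2) * (j + 1) * Bs (j + 2) (T + 1) = (j + 2) * (j + 1) * Bs (j + 2) T +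
        (j + 2) * ((j + 1) ^ (T + 1 + 1)) := by
      rw [h3]; ring
    rw [h4, ← ih]
    have h5 : (j + 1) ^ (T + 1 + 1 + 1) = (j + 1) * (j + 1) ^ (T + 1 + 1) := by ring
    rw [h5] at h2
    generalize (j + 1) ^ (T + 1 + 1) = P at h1 h2 ⊢
    nlinarith

theorem blk_identity (hk : 2 ≤ k) (ht : 2 ≤ t) : 2 * (blk k t).card +
    k * (k - 1) * (cells k t).card = k * (blk k t).card + 2 * (k * (t - 1)) := by
  obtain ⟨j, rfl⟩ : ∃ j, k = j + 2 := ⟨k - 2, by omega⟩
  obtain ⟨T, rfl⟩ : ∃ T, t = T + 2 := ⟨t - 2, by omega⟩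
  rw [card_blk, card_cells]
  have h1 := sum_identity j T
  have e1 : T + 2 - 1 = T + 1 := by omega
  have e2 : T + 2 - 2 = T := by omega
  have e3 : j + 2 - 1 = j + 1 := by omega
  rw [e1, e2, e3]
  generalize (∑ h ∈ Finset.range (T + 1), Bs (j + 2) h +
    ∑ h ∈ Finset.range (T + 1), Bs (j + 2) (h + 1)) = X at h1 ⊢
  generalize Bs (j + 2) T = Y at h1 ⊢
  calc 2 * ((j + 2) * X) + (j + 2) * (j + 1) * ((j + 2) * Y)
      = 2 * ((j + 2) * X) + (j + 2) * ((j + 2) * (j + 1) * Y) := by ring
    _ = _ := by rw [← h1]; ring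

theorem card_blk_ge (ht : 2 ≤ t) : k * (Bs k (t - 1) + 1) ≤ (blk k t).card := by
  obtain ⟨T, rfl⟩ : ∃ T, t = T + 2 := ⟨t - 2, by omega⟩
  rw [card_blk]
  apply Nat.mul_le_mul_left
  have e1 : T + 2 - 1 = T + 1 := by omega
  rw [e1]
  have h1 : Bs k 0 ≤ ∑ h ∈ Finset.range (T + 1), Bs k h :=
    Finset.single_le_sum (f := fun h => Bs k h) (fun _ _ => Nat.zero_le _)
      (Finset.mem_range.mpr (Nat.succ_pos T))
  have h2 : Bs k (T + 1) ≤ ∑ h ∈ Finset.range (T + 1), Bs k (h + 1) :=
    Finset.single_le_sum (f := fun h => Bs k (h + 1)) (fun _ _ => Nat.zero_le _)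
      (Finset.mem_range.mpr (Nat.lt_succ_self T))
  have h3 : Bs k 0 = 1 := by simp [Bs]
  omega

theorem upper_arith (hk : 2 ≤ k) (ht : 2 ≤ t) {n N m f : ℕ}
    (hn : n = k + (N * (blk k t).card + m)) (hm : m < (blk k t).card)
    (hf : f ≤ k * k + N * ((blk k t).card + (cells k t).card * k.choose 2) + k * m) :
    (Bs k (t - 1) + 1) * (2 * f) ≤ (Bs k (t - 1) + 1) * (k * n) + 2 * (t - 1) * n +
      (Bs k (t - 1) + 1) * (2 * (k * k + k * (blk k t).card)) := by
  have h1 := blk_identity hk ht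
  have h2 := card_blk_ge (k := k) ht
  have h3 : 2 * k.choose 2 = k * (k - 1) := by
    rw [Nat.choose_two_right]
    exact Nat.mul_div_cancel' (Nat.even_mul_pred_self k).two_dvd
  generalize (blk k t).card = b at *
  generalize (cells k t).card = c at *
  generalize Bs k (t - 1) + 1 = B at *
  generalize k.choose 2 = w at *
  generalize t - 1 = T at *
  have h4 : 2 * f ≤ 2 * (k * k) + N * (k * b + 2 * (k * T)) + 2 * (k * m) := by
    rw [← h1]
    have : c * (2 * w) = c * (k * (k - 1)) := by rw [h3]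
    have h5 : 2 * f ≤ 2 * (k * k) + N * (2 * b + c * (2 * w)) + 2 * (k * m) := by
      calc 2 * f ≤ 2 * (k * k + N * (b + c * w) + k * m) := Nat.mul_le_mul_left _ hf
        _ = _ := by ring
    rw [this] at h5
    calc 2 * f ≤ _ := h5
      _ = _ := by ring
  have h5 : N * b ≤ n := by omega
  have h6 : B * (N * (2 * (k * T))) ≤ 2 * T * n := by
    calc B * (N * (2 * (k * T))) = 2 * T * (N * (k * B)) := by ring
      _ ≤ 2 * T * (N * b) := Nat.mul_le_mul_left _ (Nat.mul_le_mul_left _ h2)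
      _ ≤ 2 * T * n := Nat.mul_le_mul_left _ h5
  calc B * (2 * f) ≤ B * (2 * (k * k) + N * (k * b + 2 * (k * T)) + 2 * (k * m)) :=
        Nat.mul_le_mul_left _ h4
    _ = B * (k * (N * b)) + B * (N * (2 * (k * T))) + B * (2 * (k * k + k * m)) := by ring
    _ ≤ B * (k * n) + 2 * T * n + B * (2 * (k * k + k * b)) := by
        refine Nat.add_le_add (Nat.add_le_add ?_ h6) ?_
        · exact Nat.mul_le_mul_left _ (Nat.mul_le_mul_left _ h5)
        · exact Nat.mul_le_mul_left _ (Nat.mul_le_mul_left _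
            (Nat.add_le_add_left (Nat.mul_le_mul_left _ hm.le) _))

end Pool.Agent.FTA
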