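import Pool.Agent.Helper68.FTLimit

/-!
# Fault tolerant graphs, all diameters: words, trees and cells

`k` colours, a parameter `t ≥ 2` (diameter `2 t + 2`).  A block consists, for every colour `a`, of
trees with branching `k - 1`; the vertices of a tree are the words over the alphabet without the
letter `a` (head = last letter, parent = tail).  The trees of colour `a` are `(false, h)`,
`0 ≤ h ≤ t - 2`, and `(true, h)`, `1 ≤ h ≤ t - 1` (`h` is the height).  The words of full length are
grouped in cells: every cell contains one vertex of every colour and is a clique.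
-/

namespace Pool.Agent.FTA

open Pool.Agent.Helper68

/-- `Bs k s = 1 + (k-1) + ... + (k-1)^s` -/
def Bs (k s : ℕ) : ℕ := ∑ i ∈ Finset.range (s + 1), (k - 1) ^ i

/-- words of length `j` without the letter `a` -/
def wd (k : ℕ) (a : Fin k) : ℕ → Finset (List (Fin k))
  | 0 => {[]}
  | j + 1 => ((Finset.univ.erase a) ×ˢ wd k a j).image (fun x => x.1 :: x.2)

/-- words of length at most `h` without the letter `a` -/
def tv (k : ℕ) (a : Fin k) (h : ℕ) : Finset (List (Fin k)) :=
  (Finset.range (h + 1)).biUnion (wd k a)

/-- the trees (the same for every colour): kind and height -/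
def kinds (t : ℕ) : Finset (Bool × ℕ) :=
  (Finset.range (t - 1)).image (fun h => (false, h)) ∪
    (Finset.range (t - 1)).image (fun h => (true, h + 1))

/-- a tree vertex: colour, kind and height of the tree, word -/
abbrev TV (k : ℕ) : Type := Fin k × (Bool × ℕ) × List (Fin k)

/-- the vertices of a block -/
def blk (k t : ℕ) : Finset (TV k) :=
  ((Finset.univ : Finset (Fin k)) ×ˢ kinds t).biUnion
    (fun x => (tv k x.1 x.2.2).image (fun l => (x.1, x.2, l)))

/-- the cells -/
def cells (k t : ℕ) : Finset (Fin k × List (Fin k)) :=
  (Finset.univ : Finset (Fin k)).biUnion (fun c => (tv k c (t - 2)).image (fun q => (c, q)))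

/-- the word of the member of colour `a` of a cell -/
def mw (k t : ℕ) (x : Fin k × List (Fin k)) (a : Fin k) : List (Fin k) :=
  if a = x.1 then x.2 else
    List.replicate (t - 1 - x.2.length) x.1 ++
      (x.2.dropWhile (fun b => b = a)).map (Equiv.swap a x.1)

/-- the member of colour `a` of a cell -/
def mem (k t : ℕ) (x : Fin k × List (Fin k)) (a : Fin k) : TV k :=
  (a, ((!decide (a = x.1)), (mw k t x a).length), mw k t x a)

end Pool.Agent.FTA
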