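import Pool.Agent.FTA.Graph

/-!
# The number of edges of the block graph
-/

namespace Pool.Agent.FTA

open Pool.Agent.Helper68

variable {k t N m : ℕ}

/-- the edge to the parent -/
def pe (k t N m : ℕ) (x : Fin N × {x // x ∈ blk k t}) : Sym2 (Fin k ⊕ XX k t N m) :=
  if x.2.1.2.2 = [] then s(Sum.inl x.2.1.1, Sum.inr (Sum.inl x)) else
    s(Sum.inr (Sum.inl x), Sum.inr (Sum.inl (x.1, ⟨(x.2.1.1, x.2.1.2.1, x.2.1.2.2.tail),
      blk_suffix x.2.2 (List.tail_suffix _)⟩)))

theorem pe_root {x : Fin N × {x // x ∈ blk k t}} {i : Fin k}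
    (h : x.2.1.1 = i ∧ x.2.1.2.2 = []) :
    pe k t N m x = s(Sum.inl i, Sum.inr (Sum.inl x)) := by
  unfold pe
  rw [if_pos h.2, h.1]

theorem pe_par {β : Fin N} {x y : {x // x ∈ blk k t}} (h : par x.1 y.1) :
    pe k t N m (β, x) = s(Sum.inr (Sum.inl (β, x)), Sum.inr (Sum.inl (β, y))) := by
  obtain ⟨⟨a, κh, l⟩, hx⟩ := x
  obtain ⟨⟨a', κh', l'⟩, hy⟩ := y
  obtain ⟨h1, h2, b, h3⟩ := h
  have h1' : a = a' := h1
  have h2' : κh = κh' := h2
  have h3' : l = b :: l' := h3
  subst h1' h2' h3'
  rfl

theorem gGraph_edges (ht : 2 ≤ t) (N m : ℕ) : (gGraph k t N m).edgeSet.ncard ≤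
    k * k + N * ((blk k t).card + (cells k t).card * k.choose 2) + k * m := by
  classical
  have h1 : (gGraph k t N m).edgeSet ⊆
      ((((((Finset.univ : Finset (Fin k × Fin k)).image
          (fun x => (s(Sum.inl x.1, Sum.inl x.2) : Sym2 (Fin k ⊕ XX k t N m)))) ∪
        ((Finset.univ : Finset (Fin N × {x // x ∈ blk k t})).image (pe k t N m))) ∪
        (((Finset.univ : Finset (Fin N × {ξ // ξ ∈ cells k t})) ×ˢ
            (⊤ : SimpleGraph (Fin k)).edgeFinset).image
          (fun x => x.2.map (fun a => Sum.inr (Sum.inl (x.1.1,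
            ⟨mem k t x.1.2.1 a, mem_mem_blk ht x.1.2.2 a⟩)))))) ∪
        ((Finset.univ : Finset (Fin k × Fin m)).image
          (fun x => s(Sum.inl x.1, Sum.inr (Sum.inr x.2))))) :
            Finset (Sym2 (Fin k ⊕ XX k t N m))) := by
    intro e he
    induction e using Sym2.ind with
    | _ x y =>
      rw [SimpleGraph.mem_edgeSet] at he
      change gAdj k t N m x y at he
      rw [Finset.mem_coe]
      rcases x with i | ⟨β, x⟩ | e <;> rcases y with j | ⟨β', y⟩ | f <;> simp only [gAdj] at he
      · refine Finset.mem_union_left _ (Finset.mem_union_left _ (Finset.mem_union_left _ ?_))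
        exact Finset.mem_image.mpr ⟨(i, j), Finset.mem_univ _, rfl⟩
      · refine Finset.mem_union_left _ (Finset.mem_union_left _ (Finset.mem_union_right _ ?_))
        exact Finset.mem_image.mpr ⟨(β', y), Finset.mem_univ _, pe_root he⟩
      · refine Finset.mem_union_right _ ?_
        exact Finset.mem_image.mpr ⟨(i, f), Finset.mem_univ _, rfl⟩
      · refine Finset.mem_union_left _ (Finset.mem_union_left _ (Finset.mem_union_right _ ?_))
        exact Finset.mem_image.mpr ⟨(β, x), Finset.mem_univ _, (pe_root he).trans Sym2.eq_swap⟩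
      · obtain ⟨hβ, h | h | h⟩ := he
        · have hβ' : β = β' := hβ
          subst hβ'
          refine Finset.mem_union_left _ (Finset.mem_union_left _ (Finset.mem_union_right _ ?_))
          exact Finset.mem_image.mpr ⟨(β, x), Finset.mem_univ _, pe_par h⟩
        · have hβ' : β = β' := hβ
          subst hβ'
          refine Finset.mem_union_left _ (Finset.mem_union_left _ (Finset.mem_union_right _ ?_))
          exact Finset.mem_image.mpr ⟨(β, y), Finset.mem_univ _, (pe_par h).trans Sym2.eq_swap⟩
        · have hβ' : β = β' := hβ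
          subst hβ'
          refine Finset.mem_union_left _ (Finset.mem_union_right _ ?_)
          obtain ⟨ξ, hξ, a, b, hab, hx, hy⟩ := h
          obtain ⟨x, hx'⟩ := x
          obtain ⟨y, hy'⟩ := y
          have hx2 : x = mem k t ξ a := hx
          have hy2 : y = mem k t ξ b := hy
          subst hx2 hy2
          refine Finset.mem_image.mpr ⟨((β, ⟨ξ, hξ⟩), s(a, b)), ?_, rfl⟩
          rw [Finset.mem_product]
          refine ⟨Finset.mem_univ _, ?_⟩
          rw [SimpleGraph.mem_edgeFinset, SimpleGraph.mem_edgeSet, SimpleGraph.top_adj]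
          exact hab
      · refine Finset.mem_union_right _ ?_
        exact Finset.mem_image.mpr ⟨(j, e), Finset.mem_univ _, Sym2.eq_swap⟩
  refine (Set.ncard_le_ncard h1 (Finset.finite_toSet _)).trans ?_
  rw [Set.ncard_coe_finset]
  have h2 : k * k + N * ((blk k t).card + (cells k t).card * k.choose 2) + k * m =
      k * k + N * (blk k t).card + N * (cells k t).card * k.choose 2 + k * m := by ring
  rw [h2]
  refine (Finset.card_union_le _ _).trans (Nat.add_le_add ((Finset.card_union_le _ _).trans
    (Nat.add_le_add ((Finset.card_union_le _ _).trans (Nat.add_le_add ?_ ?_)) ?_)) ?_)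
  · exact Finset.card_image_le.trans (by simp)
  · exact Finset.card_image_le.trans (by simp)
  · refine Finset.card_image_le.trans ?_
    rw [Finset.card_product, SimpleGraph.card_edgeFinset_top_eq_card_choose_two]
    simp
  · exact Finset.card_image_le.trans (by simp)

theorem card_vertices (k t N m : ℕ) : Fintype.card (Fin k ⊕ XX k t N m) =
    k + (N * (blk k t).card + m) := by
  simp

end Pool.Agent.FTA
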