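import Pool.Agent.FTA.Defs
import Pool.Agent.FT6.Upper

/-!
# Fault tolerance from a labelled path system
-/

namespace Pool.Agent.FTA

open Pool.Agent.Helper68 Pool.Agent.FT6

section kill

variable {k : ℕ} {X : Type} (Q : Fin k → X → Set X)

/-- the vertex `s` (hub or low) hits the path number `i` of `w` -/
def Kl (s : Fin k ⊕ X) (i : Fin k) (w : X) : Prop :=
  match s with
  | .inl j => j = i
  | .inr x => x ∈ Q i w

variable {Q} {col lam : X → Fin k} {anc : X → X → Prop}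

theorem kl_unique (h1 : ∀ i u s, s ∈ Q i u → (i = col s ∧ ¬ anc u s) ∨
      (i = lam s ∧ i ≠ col s ∧ anc u s)) {s : Fin k ⊕ X} {i j : Fin k} {w : X}
    (hi : Kl Q s i w) (hj : Kl Q s j w) : i = j := by
  rcases s with s | x
  · exact (show s = i from hi).symm.trans (show s = j from hj)
  · rcases h1 i w x hi with ⟨a, b⟩ | ⟨a, b, c⟩ <;> rcases h1 j w x hj with ⟨a', b'⟩ | ⟨a', b', c'⟩
    · rw [a, a']
    · exact absurd c' b
    · exact absurd c b'
    · rw [a, a']

theorem kl_two (h1 : ∀ i u s, s ∈ Q i u → (i = col s ∧ ¬ anc u s) ∨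
      (i = lam s ∧ i ≠ col s ∧ anc u s)) (hcol : ∀ x y, anc x y → col x = col y)
    {s : Fin k ⊕ X} {i j : Fin k} {u v : X} (hi : Kl Q s i u) (hj : Kl Q s j v) (hij : i ≠ j) :
    ∃ x, s = .inr x ∧ ((anc u x ∧ j = col u) ∨ (anc v x ∧ i = col v)) := by
  rcases s with s | x
  · exact absurd ((show s = i from hi).symm.trans (show s = j from hj)) hij
  · refine ⟨x, rfl, ?_⟩
    rcases h1 i u x hi with ⟨a, b⟩ | ⟨a, b, c⟩ <;> rcases h1 j v x hj with ⟨a', b'⟩ | ⟨a', b', c'⟩
    · exact absurd (a.trans a'.symm) hij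
    · right
      exact ⟨c', a.trans (hcol _ _ c').symm⟩
    · left
      exact ⟨c, a'.trans (hcol _ _ c).symm⟩
    · exact absurd (a.trans a'.symm) hij

variable {S : Finset (Fin k ⊕ X)}

theorem no_inj (hk : 1 ≤ k) (hS : S.card = k - 1) (f : Fin k → Fin k ⊕ X) (hf : ∀ i, f i ∈ S)
    (hinj : ∀ i j, f i = f j → i = j) : False := by
  have h2 := Finset.card_le_card_of_injOn f (s := Finset.univ) (t := S)
    (fun i _ => hf i) (fun i _ j _ h => hinj i j h)
  rw [Finset.card_univ, Fintype.card_fin] at h2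
  omega

theorem exists_alive (hk : 1 ≤ k) (hS : S.card = k - 1)
    (h1 : ∀ i u s, s ∈ Q i u → (i = col s ∧ ¬ anc u s) ∨
      (i = lam s ∧ i ≠ col s ∧ anc u s)) (u : X) : ∃ i, ∀ s ∈ S, ¬ Kl Q s i u := by
  by_contra hcon
  push Not at hcon
  choose f hf1 hf2 using hcon
  refine no_inj hk hS f hf1 fun i j h => ?_
  have h3 := hf2 j
  rw [← h] at h3
  exact kl_unique h1 (hf2 i) h3

theorem near (hk : 1 ≤ k) (hS : S.card = k - 1)
    (h1 : ∀ i u s, s ∈ Q i u → (i = col s ∧ ¬ anc u s) ∨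
      (i = lam s ∧ i ≠ col s ∧ anc u s)) (hcol : ∀ x y, anc x y → col x = col y)
    (hown : ∀ u s, s ∈ Q (col u) u → anc s u)
    (htr : ∀ x y z, anc x y → anc y z → anc x z) (hir : ∀ x, ¬ anc x x) (u v : X) :
    (∃ i, (∀ s ∈ S, ¬ Kl Q s i u) ∧ ∀ s ∈ S, ¬ Kl Q s i v) ∨
      (∀ s ∈ S, ¬ Kl Q s (col u) u) ∨ ∀ s ∈ S, ¬ Kl Q s (col v) v := by
  classical
  by_contra hcon
  push Not at hcon
  obtain ⟨h0, ⟨su, hsu, hku⟩, ⟨sv, hsv, hkv⟩⟩ := hcon
  have h0' : ∀ i, ∃ s ∈ S, Kl Q s i u ∨ Kl Q s i v := by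
    intro i
    by_cases h : ∀ s ∈ S, ¬ Kl Q s i u
    · obtain ⟨s, hs, hs2⟩ := h0 i h
      exact ⟨s, hs, Or.inr hs2⟩
    · push Not at h
      obtain ⟨s, hs, hs2⟩ := h
      exact ⟨s, hs, Or.inl hs2⟩
  choose g hg1 hg2 using h0'
  -- two general labels
  have hgen : ∀ i j, i ≠ j → i ≠ col u → i ≠ col v → j ≠ col u → j ≠ col v → g i ≠ g j := by
    intro i j hij hiu hiv hju hjv h
    have hj := hg2 j
    rw [← h] at hj
    rcases hg2 i with h2 | h2 <;> rcases hj with h3 | h3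
    · exact hij (kl_unique h1 h2 h3)
    · obtain ⟨x, -, ⟨-, h4⟩ | ⟨-, h4⟩⟩ := kl_two h1 hcol h2 h3 hij
      · exact hju h4
      · exact hiv h4
    · obtain ⟨x, -, ⟨-, h4⟩ | ⟨-, h4⟩⟩ := kl_two h1 hcol h2 h3 hij
      · exact hjv h4
      · exact hiu h4
    · exact hij (kl_unique h1 h2 h3)
  -- a general label sharing the killer of the own label of `u`
  have hu1 : ∀ i, i ≠ col u → g i = su → col u = col v ∧ anc v u := by
    intro i hiu h
    have h2 := hg2 i
    rw [h] at h2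
    rcases h2 with h2 | h2
    · exact absurd (kl_unique h1 h2 hku) hiu
    · obtain ⟨x, hx, ⟨-, h4⟩ | ⟨h3, h4⟩⟩ := kl_two h1 hcol hku h2 (Ne.symm hiu)
      · exact absurd h4 hiu
      · refine ⟨h4, ?_⟩
        subst hx
        exact htr _ _ _ h3 (hown u x hku)
  have hv1 : ∀ i, i ≠ col v → g i = sv → col v = col u ∧ anc u v := by
    intro i hiv h
    have h2 := hg2 i
    rw [h] at h2
    rcases h2 with h2 | h2
    · obtain ⟨x, hx, ⟨h3, h4⟩ | ⟨-, h4⟩⟩ := kl_two h1 hcol h2 hkv hiv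
      · refine ⟨h4, ?_⟩
        subst hx
        exact htr _ _ _ h3 (hown v x hkv)
      · exact absurd h4 hiv
    · exact absurd (kl_unique h1 h2 hkv) hiv
  by_cases hc : col u = col v
  · -- one special label
    obtain ⟨st, hst, hst2⟩ : ∃ st ∈ S, ∀ i, i ≠ col u → g i ≠ st := by
      by_cases hA : ∃ i, i ≠ col u ∧ g i = su
      · obtain ⟨i, hi, hgi⟩ := hA
        refine ⟨sv, hsv, fun j hj hgj => ?_⟩
        have h2 := (hu1 i hi hgi).2
        have h3 := (hv1 j (by rwa [← hc]) hgj).2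
        exact hir _ (htr _ _ _ h2 h3)
      · push Not at hA
        exact ⟨su, hsu, hA⟩
    refine no_inj hk hS (fun i => if i = col u then st else g i) ?_ ?_
    · intro i
      split_ifs
      · exact hst
      · exact hg1 i
    · intro i j h
      split_ifs at h with h2 h3 h3
      · rw [h2, h3]
      · exact absurd h.symm (hst2 j h3)
      · exact absurd h (hst2 i h2)
      · by_contra hij
        exact hgen i j hij h2 (by rwa [← hc]) h3 (by rwa [← hc]) h
  · refine no_inj hk hS (fun i => if i = col u then su else if i = col v then sv else g i) ?_ ?_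
    · intro i
      split_ifs
      · exact hsu
      · exact hsv
      · exact hg1 i
    · have huv : su ≠ sv := by
        intro h
        rw [← h] at hkv
        obtain ⟨x, -, ⟨-, h4⟩ | ⟨-, h4⟩⟩ := kl_two h1 hcol hku hkv hc
        · exact hc h4.symm
        · exact hc h4
      intro i j h
      split_ifs at h with h2 h3 h4 h4 h5 h6 h6 h7 h8
      all_goals first
        | (rw [h2, h3]; done)
        | exact absurd h huv
        | exact absurd h.symm huv
        | (exfalso; exact hc (hu1 _ (by assumption) h.symm).1)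
        | (exfalso; exact hc (hu1 _ (by assumption) h).1)
        | (exfalso; exact hc (hv1 _ (by assumption) h.symm).1.symm)
        | (exfalso; exact hc (hv1 _ (by assumption) h).1.symm)
        | (by_contra hij; exact hgen i j hij (by assumption) (by assumption) (by assumption)
            (by assumption) h)
        | simp_all

end kill

theorem frame_conn {k r : ℕ} {X : Type} [DecidableEq X] {G : SimpleGraph (Fin k ⊕ X)}
    {Q : Fin k → X → Set X} {col lam : X → Fin k} {anc : X → X → Prop} (hk : 1 ≤ k) (hr : 1 ≤ r)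
    (hcl : ∀ i j : Fin k, i ≠ j → G.Adj (.inl i) (.inl j))
    (h1 : ∀ i u s, s ∈ Q i u → (i = col s ∧ ¬ anc u s) ∨
      (i = lam s ∧ i ≠ col s ∧ anc u s)) (hcol : ∀ x y, anc x y → col x = col y)
    (hown : ∀ u s, s ∈ Q (col u) u → anc s u)
    (htr : ∀ x y z, anc x y → anc y z → anc x z) (hir : ∀ x, ¬ anc x x)
    (hp : ∀ (S : Finset (Fin k ⊕ X)) i u, .inr u ∉ S → .inl i ∉ S →
      (∀ s ∈ Q i u, .inr s ∉ S) → Conn G S r (.inr u) (.inl i))
    (hp' : ∀ (S : Finset (Fin k ⊕ X)) u, .inr u ∉ S → .inl (col u) ∉ S →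
      (∀ s ∈ Q (col u) u, .inr s ∉ S) → Conn G S (r - 1) (.inr u) (.inl (col u)))
    (S : Finset (Fin k ⊕ X)) (hS : S.card = k - 1) (u v : Fin k ⊕ X) (hu : u ∉ S) (hv : v ∉ S) :
    Conn G S (2 * r) u v := by
  have hal : ∀ {i : Fin k} {w : X}, (∀ s ∈ S, ¬ Kl Q s i w) → .inl i ∉ S ∧
      ∀ s ∈ Q i w, .inr s ∉ S := by
    intro i w h
    refine ⟨fun h2 => h _ h2 rfl, fun s hs h2 => h _ h2 hs⟩
  have hhub : ∀ {i j : Fin k}, (.inl i : Fin k ⊕ X) ∉ S → (.inl j : Fin k ⊕ X) ∉ S →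
      Conn G S 1 (.inl i) (.inl j) := by
    intro i j hi hj
    refine (Conn.refl hj).cons hi ?_
    by_cases h : i = j
    · left; rw [h]
    · right; exact hcl i j h
  have hone : ∀ {w : X}, (.inr w : Fin k ⊕ X) ∉ S → ∃ i, .inl i ∉ S ∧
      Conn G S r (.inr w) (.inl i) := by
    intro w hw
    obtain ⟨i, hi⟩ := exists_alive hk hS h1 w
    exact ⟨i, (hal hi).1, hp S i w hw (hal hi).1 (hal hi).2⟩
  rcases u with i | u <;> rcases v with j | v
  · exact (hhub hu hv).mono (by omega)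
  · obtain ⟨l, hl, hc⟩ := hone hv
    exact (Conn.trans' (hhub hu hl) (Conn.symm' hc)).mono (by omega)
  · obtain ⟨l, hl, hc⟩ := hone hu
    exact (Conn.trans' hc (hhub hl hv)).mono (by omega)
  · rcases near hk hS h1 hcol hown htr hir u v with ⟨i, hi, hj⟩ | hi | hi
    · exact (Conn.trans' (hp S i u hu (hal hi).1 (hal hi).2)
        (Conn.symm' (hp S i v hv (hal hj).1 (hal hj).2))).mono (by omega)
    · obtain ⟨l, hl, hc⟩ := hone hv
      exact (Conn.trans' (hp' S u hu (hal hi).1 (hal hi).2) (Conn.trans' (hhub (hal hi).1 hl)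
        (Conn.symm' hc))).mono (by omega)
    · obtain ⟨l, hl, hc⟩ := hone hu
      exact (Conn.trans' hc (Conn.trans' (hhub hl (hal hi).1)
        (Conn.symm' (hp' S v hv (hal hi).1 (hal hi).2)))).mono (by omega)

end Pool.Agent.FTA
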