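import Pool.Agent.FTA.Mem
import Pool.Agent.FTA.Frame

/-!
# The block graph
-/

namespace Pool.Agent.FTA

open Pool.Agent.Helper68 Pool.Agent.FT6

variable {k t N m : ℕ}

/-- `y` is the parent of `x` -/
def par (x y : TV k) : Prop := x.1 = y.1 ∧ x.2.1 = y.2.1 ∧ ∃ b, x.2.2 = b :: y.2.2

/-- two members of a cell -/
def cross (k t : ℕ) (x y : TV k) : Prop :=
  ∃ ξ ∈ cells k t, ∃ a b, a ≠ b ∧ x = mem k t ξ a ∧ y = mem k t ξ b

/-- low edges -/
def low (k t : ℕ) (x y : TV k) : Prop := par x y ∨ par y x ∨ cross k t x y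

theorem par_irrefl (x : TV k) : ¬ par x x := by
  rintro ⟨-, -, b, h⟩
  have := congrArg List.length h
  simp at this

theorem cross_symm {x y : TV k} (h : cross k t x y) : cross k t y x := by
  obtain ⟨ξ, h1, a, b, h2, h3, h4⟩ := h
  exact ⟨ξ, h1, b, a, Ne.symm h2, h4, h3⟩

theorem cross_irrefl (x : TV k) : ¬ cross k t x x := by
  rintro ⟨ξ, h1, a, b, h2, h3, h4⟩
  apply h2
  have h5 := congrArg Prod.fst (h3.symm.trans h4)
  simpa [mem] using h5

theorem low_symm {x y : TV k} (h : low k t x y) : low k t y x := by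
  rcases h with h | h | h
  · exact Or.inr (Or.inl h)
  · exact Or.inl h
  · exact Or.inr (Or.inr (cross_symm h))

theorem low_irrefl (x : TV k) : ¬ low k t x x := by
  rintro (h | h | h)
  · exact par_irrefl x h
  · exact par_irrefl x h
  · exact cross_irrefl x h

/-- low vertices: `N` blocks and `m` leftover vertices -/
abbrev XX (k t N m : ℕ) : Type := (Fin N × {x // x ∈ blk k t}) ⊕ Fin m

/-- adjacency -/
def gAdj (k t N m : ℕ) : (Fin k ⊕ XX k t N m) → (Fin k ⊕ XX k t N m) → Prop
  | .inl i, .inl j => i ≠ j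
  | .inl i, .inr (.inl x) => x.2.1.1 = i ∧ x.2.1.2.2 = []
  | .inr (.inl x), .inl i => x.2.1.1 = i ∧ x.2.1.2.2 = []
  | .inl _, .inr (.inr _) => True
  | .inr (.inr _), .inl _ => True
  | .inr (.inl x), .inr (.inl y) => x.1 = y.1 ∧ low k t x.2.1 y.2.1
  | _, _ => False

/-- the graph -/
def gGraph (k t N m : ℕ) : SimpleGraph (Fin k ⊕ XX k t N m) where
  Adj := gAdj k t N m
  symm := ⟨by
    intro u v h
    rcases u with i | x | e <;> rcases v with j | y | f <;> simp only [gAdj] at h ⊢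
    · exact fun h' => h h'.symm
    · exact h
    · exact h
    · exact ⟨h.1.symm, low_symm h.2⟩⟩
  loopless := ⟨by
    intro u h
    rcases u with i | x | e
    · exact h rfl
    · exact low_irrefl _ h.2
    · exact h⟩

end Pool.Agent.FTA
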