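import Pool.Agent.FTA.Defs

/-!
# Layers around the hubs
-/

namespace Pool.Agent.FTA

open Pool.Agent.Helper68

variable {V : Type} [Fintype V] [DecidableEq V] (G : SimpleGraph V) [DecidableRel G.Adj]
  (H : Finset V)

/-- `Us s`: low vertices with a path of length at most `s + 1` to a hub, all inner vertices low -/
def Us : ℕ → Finset V
  | 0 => Hᶜ.filter (fun y => (G.neighborFinset y ∩ H).Nonempty)
  | s + 1 => Us s ∪ Hᶜ.filter (fun z => ∃ y ∈ Us s, G.Adj z y)

/-- number of edges between hubs and low vertices -/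
def JJ : ℕ := ∑ u ∈ Hᶜ, (G.neighborFinset u ∩ H).card

/-- total excess of the low degrees -/
def EE (k : ℕ) : ℕ := ∑ u ∈ Hᶜ, (G.degree u - k)

end Pool.Agent.FTA
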