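import Pool.Agent.FTA.LDefs

/-!
# The number of vertices in the layers around the hubs
-/

namespace Pool.Agent.FTA

open Pool.Agent.Helper68

variable {V : Type} [Fintype V] [DecidableEq V] {G : SimpleGraph V} [DecidableRel G.Adj]
  {H : Finset V}

private theorem Us_low (s : ℕ) : Us G H s ⊆ Hᶜ := by
  induction s with
  | zero => exact Finset.filter_subset _ _
  | succ s ih => exact Finset.union_subset ih (Finset.filter_subset _ _)

private theorem Us_succ_sub (s : ℕ) : Us G H s ⊆ Us G H (s + 1) := Finset.subset_union_left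

private theorem mem_Us_succ {s : ℕ} {z : V} :
    z ∈ Us G H (s + 1) ↔ z ∈ Us G H s ∨ (z ∈ Hᶜ ∧ ∃ y ∈ Us G H s, G.Adj z y) := by
  simp only [Us, Finset.mem_union, Finset.mem_filter]

private theorem card_nb (C D : Finset V) (h : ∀ z ∈ D, ∃ y ∈ C, G.Adj z y) :
    D.card ≤ ∑ y ∈ C, (G.neighborFinset y ∩ D).card := by
  have h1 : D ⊆ C.biUnion (fun y => G.neighborFinset y ∩ D) := by
    intro z hz
    obtain ⟨y, hy, ha⟩ := h z hz
    rw [Finset.mem_biUnion]
    refine ⟨y, hy, Finset.mem_inter.2 ⟨?_, hz⟩⟩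
    rw [SimpleGraph.mem_neighborFinset]
    exact ha.symm
  exact (Finset.card_le_card h1).trans Finset.card_biUnion_le

/-- the new vertices of a layer -/
private def Dd (G : SimpleGraph V) [DecidableRel G.Adj] (H : Finset V) (s : ℕ) : Finset V :=
  Us G H (s + 1) \ Us G H s

private theorem first {k : ℕ} (hk : 2 ≤ k) (hdeg : ∀ v, k ≤ G.degree v) :
    (Dd G H 0).card ≤ (k - 1) * JJ G H + ∑ y ∈ Us G H 0, (G.degree y - k) := by
  have h1 := card_nb (G := G) (Us G H 0) (Dd G H 0) (by
    intro z hz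
    rw [Dd, Finset.mem_sdiff, mem_Us_succ] at hz
    rcases hz.1 with h | h
    · exact absurd h hz.2
    · exact h.2)
  have h2 : ∀ y ∈ Us G H 0, (G.neighborFinset y ∩ Dd G H 0).card ≤
      (k - 1) * (G.neighborFinset y ∩ H).card + (G.degree y - k) := by
    intro y hy
    have hj : 1 ≤ (G.neighborFinset y ∩ H).card := by
      have := (Finset.mem_filter.1 hy).2
      exact Finset.card_pos.2 this
    have hdis : Disjoint (G.neighborFinset y ∩ Dd G H 0) (G.neighborFinset y ∩ H) := by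
      rw [Finset.disjoint_left]
      intro z hz hz'
      have h3 := (Finset.mem_inter.1 hz).2
      rw [Dd, Finset.mem_sdiff] at h3
      have h4 := Us_low 1 h3.1
      rw [Finset.mem_compl] at h4
      exact h4 (Finset.mem_inter.1 hz').2
    have h5 : ((G.neighborFinset y ∩ Dd G H 0) ∪ (G.neighborFinset y ∩ H)).card ≤ G.degree y := by
      rw [← SimpleGraph.card_neighborFinset_eq_degree]
      exact Finset.card_le_card
        (Finset.union_subset Finset.inter_subset_left Finset.inter_subset_left)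
    rw [Finset.card_union_of_disjoint hdis] at h5
    obtain ⟨c, rfl⟩ : ∃ c, k = c + 1 := ⟨k - 1, by omega⟩
    have h6 := hdeg y
    rw [Nat.add_sub_cancel]
    generalize (G.neighborFinset y ∩ H).card = j at *
    have h7 : c ≤ c * j := Nat.le_mul_of_pos_right c hj
    omega
  calc _ ≤ _ := h1
    _ ≤ ∑ y ∈ Us G H 0, ((k - 1) * (G.neighborFinset y ∩ H).card + (G.degree y - k)) :=
        Finset.sum_le_sum h2
    _ = (k - 1) * ∑ y ∈ Us G H 0, (G.neighborFinset y ∩ H).card +
          ∑ y ∈ Us G H 0, (G.degree y - k) := by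
        rw [Finset.sum_add_distrib, Finset.mul_sum]
    _ ≤ _ := by
        have : ∑ y ∈ Us G H 0, (G.neighborFinset y ∩ H).card ≤ JJ G H :=
          Finset.sum_le_sum_of_subset (Us_low 0)
        exact Nat.add_le_add_right (Nat.mul_le_mul_left _ this) _

private theorem next {k : ℕ} (hk : 2 ≤ k) (hdeg : ∀ v, k ≤ G.degree v) (s : ℕ) :
    (Dd G H (s + 1)).card ≤ (k - 1) * (Dd G H s).card + ∑ y ∈ Dd G H s, (G.degree y - k) := by
  have h1 := card_nb (G := G) (Dd G H s) (Dd G H (s + 1)) (by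
    intro z hz
    rw [Dd, Finset.mem_sdiff, mem_Us_succ (s := s + 1)] at hz
    rcases hz.1 with h | ⟨hzH, y, hy, ha⟩
    · exact absurd h hz.2
    · refine ⟨y, ?_, ha⟩
      rw [Dd, Finset.mem_sdiff]
      refine ⟨hy, fun hy' => hz.2 ?_⟩
      rw [mem_Us_succ]
      exact Or.inr ⟨hzH, y, hy', ha⟩)
  have h2 : ∀ y ∈ Dd G H s, (G.neighborFinset y ∩ Dd G H (s + 1)).card ≤
      (k - 1) + (G.degree y - k) := by
    intro y hy
    rw [Dd, Finset.mem_sdiff, mem_Us_succ] at hy
    rcases hy.1 with h | ⟨hyH, y', hy', ha⟩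
    · exact absurd h hy.2
    have h3 : G.neighborFinset y ∩ Dd G H (s + 1) ⊆ (G.neighborFinset y).erase y' := by
      intro z hz
      rw [Finset.mem_inter, Dd, Finset.mem_sdiff] at hz
      rw [Finset.mem_erase]
      refine ⟨?_, hz.1⟩
      rintro rfl
      exact hz.2.2 (Us_succ_sub s hy')
    have h4 : y' ∈ G.neighborFinset y := by
      rw [SimpleGraph.mem_neighborFinset]
      exact ha
    have h5 := Finset.card_le_card h3
    rw [Finset.card_erase_of_mem h4, SimpleGraph.card_neighborFinset_eq_degree] at h5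
    have h6 := hdeg y
    omega
  calc _ ≤ _ := h1
    _ ≤ ∑ y ∈ Dd G H s, ((k - 1) + (G.degree y - k)) := Finset.sum_le_sum h2
    _ = _ := by
        rw [Finset.sum_add_distrib, Finset.sum_const, smul_eq_mul, mul_comm]

private theorem sum_Us (s : ℕ) (f : V → ℕ) :
    ∑ y ∈ Us G H (s + 1), f y = ∑ y ∈ Us G H s, f y + ∑ y ∈ Dd G H s, f y := by
  rw [Dd, ← Finset.sum_sdiff (Us_succ_sub s), Nat.add_comm]

private theorem layer {k : ℕ} (hk : 2 ≤ k) (hdeg : ∀ v, k ≤ G.degree v) (s : ℕ) :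
    (Dd G H s).card ≤ (k - 1) ^ (s + 1) * JJ G H +
      (k - 1) ^ s * ∑ y ∈ Us G H s, (G.degree y - k) := by
  induction s with
  | zero => simpa using first (G := G) (H := H) hk hdeg
  | succ s ih =>
    have h1 := next (G := G) (H := H) hk hdeg s
    have h2 : 1 ≤ (k - 1) ^ (s + 1) := Nat.one_le_pow _ _ (by omega)
    rw [sum_Us s (fun y => G.degree y - k)]
    have h3 : ∑ y ∈ Dd G H s, (G.degree y - k) ≤
        (k - 1) ^ (s + 1) * ∑ y ∈ Dd G H s, (G.degree y - k) :=
      Nat.le_mul_of_pos_left _ h2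
    have h4 := Nat.mul_le_mul_left (k - 1) ih
    calc _ ≤ _ := h1
      _ ≤ (k - 1) * ((k - 1) ^ (s + 1) * JJ G H +
            (k - 1) ^ s * ∑ y ∈ Us G H s, (G.degree y - k)) +
            (k - 1) ^ (s + 1) * ∑ y ∈ Dd G H s, (G.degree y - k) := Nat.add_le_add h4 h3
      _ = _ := by ring

private theorem card_Us_le {k : ℕ} (hk : 2 ≤ k) (hdeg : ∀ v, k ≤ G.degree v) (S : ℕ) :
    (Us G H S).card ≤ Bs k S * JJ G H + (∑ i ∈ Finset.range S, (k - 1) ^ i) * EE G H k := by
  induction S with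
  | zero =>
    have h1 : (Us G H 0).card ≤ JJ G H := by
      calc (Us G H 0).card = ∑ _y ∈ Us G H 0, 1 := by simp
        _ ≤ ∑ y ∈ Us G H 0, (G.neighborFinset y ∩ H).card := by
            refine Finset.sum_le_sum fun y hy => ?_
            exact Finset.card_pos.2 (Finset.mem_filter.1 hy).2
        _ ≤ JJ G H := Finset.sum_le_sum_of_subset (Us_low 0)
    simpa [Bs] using h1
  | succ S ih =>
    have h1 := layer (G := G) (H := H) hk hdeg S
    have h2 : ∑ y ∈ Us G H S, (G.degree y - k) ≤ EE G H k :=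
      Finset.sum_le_sum_of_subset (Us_low S)
    have h3 : (Us G H (S + 1)).card = (Us G H S).card + (Dd G H S).card := by
      have := sum_Us (G := G) (H := H) S (fun _ => 1)
      simpa using this
    have h4 : Bs k (S + 1) = Bs k S + (k - 1) ^ (S + 1) := by
      simp only [Bs]
      rw [Finset.sum_range_succ _ (S + 1)]
    rw [h3, h4, Finset.sum_range_succ]
    have h5 := Nat.mul_le_mul_left ((k - 1) ^ S) h2
    calc _ ≤ _ := Nat.add_le_add ih (h1.trans (Nat.add_le_add_left h5 _))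
      _ = _ := by ring

theorem layer_bound {V : Type} [Fintype V] [DecidableEq V] {G : SimpleGraph V}
    [DecidableRel G.Adj] {H : Finset V} {k : ℕ} (hk : 2 ≤ k) (hdeg : ∀ v, k ≤ G.degree v) (S : ℕ) :
    k * (Us G H S).card + EE G H k ≤ k * Bs k S * (JJ G H + EE G H k) := by
  have h1 := Nat.mul_le_mul_left k (card_Us_le (G := G) (H := H) hk hdeg S)
  have h2 : Bs k S = ∑ i ∈ Finset.range S, (k - 1) ^ i + (k - 1) ^ S := by
    simp only [Bs]
    rw [Finset.sum_range_succ]
  have h3 : 1 ≤ k * (k - 1) ^ S := by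
    have : 1 ≤ (k - 1) ^ S := Nat.one_le_pow _ _ (by omega)
    exact Nat.one_le_iff_ne_zero.2 (Nat.mul_ne_zero (by omega) (by omega))
  have h4 : EE G H k ≤ k * (k - 1) ^ S * EE G H k := Nat.le_mul_of_pos_left _ h3
  calc _ ≤ k * (Bs k S * JJ G H + (∑ i ∈ Finset.range S, (k - 1) ^ i) * EE G H k) +
        k * (k - 1) ^ S * EE G H k := Nat.add_le_add h1 h4
    _ = k * Bs k S * JJ G H +
        k * (∑ i ∈ Finset.range S, (k - 1) ^ i + (k - 1) ^ S) * EE G H k := by ring
    _ = _ := by
        rw [← h2]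
        ring

end Pool.Agent.FTA
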