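import Pool.Agent.FTA.LDefs

/-!
# Paths, layers and the counting inequality
-/

namespace Pool.Agent.FTA

open Pool.Agent.Helper68

variable {V : Type} [Fintype V] [DecidableEq V] {G : SimpleGraph V} [DecidableRel G.Adj]
  {H : Finset V}

theorem Us_mono {s s' : ℕ} (h : s ≤ s') : Us G H s ⊆ Us G H s' := by
  induction s' with
  | zero =>
    have : s = 0 := by omega
    rw [this]
  | succ s' ih =>
    rcases Nat.lt_or_ge s (s' + 1) with h1 | h1
    · exact (ih (by omega)).trans Finset.subset_union_left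
    · have : s = s' + 1 := by omega
      rw [this]

theorem Us_sub (s : ℕ) : Us G H s ⊆ Hᶜ := by
  induction s with
  | zero => exact Finset.filter_subset _ _
  | succ s ih => exact Finset.union_subset ih (Finset.filter_subset _ _)

/-- the neighbours of `u` which are hubs or in the layers -/
def AA (G : SimpleGraph V) [DecidableRel G.Adj] (H : Finset V) (s : ℕ) (u : V) : Finset V :=
  G.neighborFinset u ∩ (H ∪ Us G H s)

theorem mem_Us_of_path {S : Finset V} {ℓ : ℕ} {p : ℕ → V} {u v : V}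
    (h : PathAvoid G S ℓ p u v) {t : ℕ} (ht : t ≤ ℓ) (hp : p t ∈ H) (hlow : ∀ i < t, p i ∉ H) :
    ∀ i, i + 1 ≤ t → p (t - (i + 1)) ∈ Us G H i := by
  intro i
  induction i with
  | zero =>
    intro hi
    have h1 := hlow (t - (0 + 1)) (by omega)
    have h2 := h.2.2.1 (t - (0 + 1)) (by omega)
    have h3 : t - (0 + 1) + 1 = t := by omega
    rw [h3] at h2
    unfold Us
    rw [Finset.mem_filter, Finset.mem_compl]
    exact ⟨h1, ⟨p t, Finset.mem_inter.mpr ⟨by simpa using h2, hp⟩⟩⟩
  | succ i ih =>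
    intro hi
    have h0 := ih (by omega)
    have h1 := hlow (t - (i + 1 + 1)) (by omega)
    have h2 := h.2.2.1 (t - (i + 1 + 1)) (by omega)
    have h3 : t - (i + 1 + 1) + 1 = t - (i + 1) := by omega
    rw [h3] at h2
    rw [Us]
    refine Finset.mem_union_right _ ?_
    rw [Finset.mem_filter, Finset.mem_compl]
    exact ⟨h1, _, h0, h2⟩

theorem first_ge {S : Finset V} {ℓ r : ℕ} {p : ℕ → V} {u v : V} (hr : 2 ≤ r)
    (h : PathAvoid G S ℓ p u v) {t : ℕ} (ht : t ≤ ℓ) (ht1 : 1 ≤ t) (hp : p t ∈ H)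
    (hlow : ∀ i < t, p i ∉ H) (hu : u ∉ Us G H (r - 2)) : r ≤ t := by
  by_contra hcon
  apply hu
  have h1 := mem_Us_of_path h ht hp hlow (t - 1) (by omega)
  have h2 : t - (t - 1 + 1) = 0 := by omega
  rw [h2, h.1] at h1
  exact Us_mono (by omega) h1

theorem first_ge' {S : Finset V} {ℓ r : ℕ} {p : ℕ → V} {u v : V} (hr : 2 ≤ r)
    (h : PathAvoid G S ℓ p u v) {t : ℕ} (ht : t ≤ ℓ) (ht1 : 1 ≤ t) (hp : p t ∈ H)
    (hlow : ∀ i < t, p i ∉ H) (hS : AA G H (r - 2) u ⊆ S) : r + 1 ≤ t := by
  have h0 := h.2.2.1 0 (by omega)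
  rw [h.1] at h0
  by_contra hcon
  rcases Nat.lt_or_ge t 2 with h1 | h1
  · have h2 : t = 1 := by omega
    subst h2
    apply h.2.2.2 1 ht
    apply hS
    unfold AA
    rw [Finset.mem_inter, SimpleGraph.mem_neighborFinset]
    exact ⟨h0, Finset.mem_union_left _ hp⟩
  · have h2 := mem_Us_of_path h ht hp hlow (t - 2) (by omega)
    have h3 : t - (t - 2 + 1) = 1 := by omega
    rw [h3] at h2
    apply h.2.2.2 1 (by omega)
    apply hS
    unfold AA
    rw [Finset.mem_inter, SimpleGraph.mem_neighborFinset]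
    exact ⟨h0, Finset.mem_union_right _ (Us_mono (by omega) h2)⟩

/-- Two low vertices are joined by a low path or the path has a first and a last hub. -/
theorem path_cases' {S : Finset V} {ℓ d : ℕ} {p : ℕ → V} {u v : V}
    (h : PathAvoid G S ℓ p u v) (hℓ : ℓ ≤ d) (hu : u ∉ H) (hv : v ∉ H) (hne : v ≠ u) :
    v ∈ Ball G H d u ∨ ∃ t t', t ≤ ℓ ∧ t' ≤ ℓ ∧ t + t' ≤ ℓ ∧ p t ∈ H ∧ p (ℓ - t') ∈ H ∧
      1 ≤ t ∧ 1 ≤ t' ∧ (∀ i < t, p i ∉ H) ∧ (∀ i < t', p (ℓ - i) ∉ H) := by
  rcases first_hub (H := H) h with h1 | ⟨t, ht, ht1, ht2, ht3⟩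
  · left
    unfold Ball
    rw [Finset.mem_erase, Finset.mem_sdiff, Finset.mem_biUnion]
    refine ⟨hne, ⟨ℓ, ?_, ?_⟩, hv⟩
    · rw [Finset.mem_Icc]
      refine ⟨?_, hℓ⟩
      by_contra h2
      have h3 : ℓ = 0 := by omega
      have := h.1
      have h4 := h.2.1
      rw [h3, this] at h4
      exact hne h4.symm
    · have := mem_R_of_path (H := H) h (le_refl ℓ) (fun i hi => h1 i (by omega))
      rw [h.2.1] at this
      exact this
  · right
    rcases first_hub (H := H) h.reverse with h1 | ⟨t', ht', ht1', ht2', ht3'⟩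
    · exfalso
      have := h1 (ℓ - t) (by omega)
      have h2 : ℓ - (ℓ - t) = t := by omega
      simp only [h2] at this
      exact this ht1
    · refine ⟨t, t', ht, ht', ?_, ht1, ht1', ?_, ?_, ht2, ht2'⟩
      · by_contra hcon
        exact ht2 (ℓ - t') (by omega) ht1'
      · by_contra hcon
        have h0 : t = 0 := by omega
        rw [h0, h.1] at ht1
        exact hu ht1
      · by_contra hcon
        have h0 : t' = 0 := by omega
        rw [h0] at ht1'
        simp only [Nat.sub_zero, h.2.1] at ht1'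
        exact hv ht1'

/-- double counting -/
theorem sum_AA_le {k : ℕ} (hdeg : ∀ v, k ≤ G.degree v) (s : ℕ) :
    ∑ u ∈ Hᶜ, (AA G H s u).card ≤ k * (Us G H s).card + EE G H k := by
  set U := Us G H s with hU
  have hUH : U ⊆ Hᶜ := Us_sub s
  have h1 : ∀ u ∈ Hᶜ, (AA G H s u).card =
      (G.neighborFinset u ∩ H).card + (G.neighborFinset u ∩ U).card := by
    intro u _
    unfold AA
    rw [← hU, Finset.inter_union_distrib_left, Finset.card_union_of_disjoint]
    rw [Finset.disjoint_left]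
    intro x hx hx'
    rw [Finset.mem_inter] at hx hx'
    exact (Finset.mem_compl.mp (hUH hx'.2)) hx.2
  rw [Finset.sum_congr rfl h1, Finset.sum_add_distrib]
  have h2 : ∑ u ∈ Hᶜ, (G.neighborFinset u ∩ H).card = ∑ u ∈ U, (G.neighborFinset u ∩ H).card := by
    symm
    refine Finset.sum_subset hUH ?_
    intro u hu hu'
    rw [Finset.card_eq_zero, ← Finset.not_nonempty_iff_eq_empty]
    intro h3
    apply hu'
    apply Us_mono (Nat.zero_le s)
    unfold Us
    rw [Finset.mem_filter]
    exact ⟨hu, h3⟩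
  have h3 : ∑ u ∈ Hᶜ, (G.neighborFinset u ∩ U).card = ∑ y ∈ U, (G.neighborFinset y \ H).card := by
    have := Finset.sum_card_bipartiteAbove_eq_sum_card_bipartiteBelow (s := U) (t := Hᶜ)
      (r := fun a b => G.Adj a b)
    rw [Finset.sum_congr rfl (g := fun h => (Finset.bipartiteBelow (fun a b => G.Adj a b) U h).card),
      ← this]
    · refine Finset.sum_congr rfl fun u _ => ?_
      congr 1
      ext x
      simp only [Finset.mem_bipartiteAbove, Finset.mem_sdiff, SimpleGraph.mem_neighborFinset,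
        Finset.mem_compl]
      tauto
    · intro h _
      congr 1
      ext x
      simp only [Finset.mem_bipartiteBelow, Finset.mem_inter, SimpleGraph.mem_neighborFinset]
      constructor
      · rintro ⟨h1, h2⟩; exact ⟨h2, h1.symm⟩
      · rintro ⟨h1, h2⟩; exact ⟨h2.symm, h1⟩
  rw [h2, h3, ← Finset.sum_add_distrib]
  have h4 : ∀ u ∈ U, (G.neighborFinset u ∩ H).card + (G.neighborFinset u \ H).card =
      k + (G.degree u - k) := by
    intro u _
    rw [Finset.card_inter_add_card_sdiff, SimpleGraph.card_neighborFinset_eq_degree]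
    have := hdeg u
    omega
  rw [Finset.sum_congr rfl h4, Finset.sum_add_distrib, Finset.sum_const, smul_eq_mul]
  have h5 : ∑ u ∈ U, (G.degree u - k) ≤ EE G H k := Finset.sum_le_sum_of_subset hUH
  rw [mul_comm]
  omega

theorem two_e_ge {k : ℕ} (hdeg : ∀ v, k ≤ G.degree v) :
    k * Hᶜ.card + (JJ G H + EE G H k) ≤ 2 * G.edgeFinset.card := by
  refine le_trans (le_of_eq ?_) (two_mul_edges_ge (G := G) H)
  have h4 : ∀ u ∈ Hᶜ, 2 * (G.neighborFinset u ∩ H).card + (G.neighborFinset u \ H).card =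
      k + ((G.neighborFinset u ∩ H).card + (G.degree u - k)) := by
    intro u _
    have h5 := Finset.card_inter_add_card_sdiff (G.neighborFinset u) H
    rw [SimpleGraph.card_neighborFinset_eq_degree] at h5
    have := hdeg u
    omega
  rw [Finset.sum_congr rfl h4, Finset.sum_add_distrib, Finset.sum_add_distrib, Finset.sum_const,
    smul_eq_mul]
  unfold JJ EE
  ring

end Pool.Agent.FTA
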