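import Pool.Agent.FTA.Defs

/-!
# Fault tolerant graphs, all diameters: passage to the lower and upper limit
-/

namespace Pool.Agent.FTA

open Pool.Agent.Helper68 Filter Topology

/-- the trivial upper bound -/
theorem fhat_le_mul {n d k : ℕ} (hk : 1 ≤ k) (hd : 2 ≤ d) (hn : 2 * k ≤ n) :
    fhat n d k ≤ k * n :=
  (fhat_anti (by omega) hd).trans ((fhat_two_le hk hn).trans
    (Nat.mul_le_mul_left _ (Nat.sub_le _ _)))

theorem bdd_above {d k : ℕ} (hk : 1 ≤ k) (hd : 2 ≤ d) :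
    IsBoundedUnder (· ≤ ·) atTop (fun n : ℕ => phihat n d k / n) := by
  refine isBoundedUnder_of_eventually_le (a := (k : ℝ)) ?_
  filter_upwards [eventually_ge_atTop (2 * k), eventually_gt_atTop 0] with n h1 h2
  rw [phihat_div n d k h2]
  have hn : (0 : ℝ) < n := by exact_mod_cast h2
  have h3 : (fhat n d k : ℝ) ≤ k * n := by exact_mod_cast fhat_le_mul hk hd h1
  have h4 : (fhat n d k : ℝ) / n ≤ k := by
    rw [div_le_iff₀ hn]
    exact h3
  have h5 : (0 : ℝ) ≤ k := Nat.cast_nonneg k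
  linarith

theorem bdd_below {d k : ℕ} :
    IsBoundedUnder (· ≥ ·) atTop (fun n : ℕ => phihat n d k / n) := by
  refine isBoundedUnder_of_eventually_ge (a := -((k : ℝ) / 2)) ?_
  filter_upwards [eventually_gt_atTop 0] with n h2
  rw [phihat_div n d k h2]
  have h4 : (0 : ℝ) ≤ (fhat n d k : ℝ) / n := by positivity
  linarith

theorem low_lim {d k c B : ℕ} (hk : 2 ≤ k) (hB : 1 ≤ B) (hc : 1 ≤ c) (hd : 2 ≤ d)
    (H : ∀ n D : ℕ, k + 1 ≤ n → 1 ≤ D → ∃ h : ℕ, h * D ≤ 2 * fhat n d k ∧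
      (c * k * B + 1) * n ≤ c * B * (2 * fhat n d k) + (c * k * B + 1) * h + (d * D ^ d + 1)) :
    (1 : ℝ) / (2 * (c * B)) ≤ Filter.liminf (fun n : ℕ => phihat n d k / n) Filter.atTop := by
  refine le_of_forall_sub_le (fun ε hε => ?_)
  refine le_liminf_of_le (bdd_above (by omega) hd).isCoboundedUnder_ge ?_
  have hcB : (1 : ℝ) ≤ (c : ℝ) * B := by
    have h1 : 1 ≤ c * B := Nat.mul_pos hc hB
    exact_mod_cast h1
  have hkr : (2 : ℝ) ≤ k := by exact_mod_cast hk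
  -- the constant
  obtain ⟨D, hD⟩ := exists_nat_gt ((2 * ((c : ℝ) * k * B + 1) * (2 * k)) / ε + 1)
  have hD0 : (0 : ℝ) ≤ (2 * ((c : ℝ) * k * B + 1) * (2 * k)) / ε := by positivity
  have hD1 : 1 ≤ D := by
    have h2 : (1 : ℝ) < D := by linarith
    exact_mod_cast h2.le
  have hDr : (0 : ℝ) < D := by
    have h2 : (1 : ℝ) < D := by linarith
    linarith
  have hDε : 2 * ((c : ℝ) * k * B + 1) * (2 * k) ≤ ε * D := by
    have h1 : (2 * ((c : ℝ) * k * B + 1) * (2 * k)) / ε < D := by linarith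
    rw [div_lt_iff₀ hε] at h1
    linarith
  have hev : ∀ᶠ n : ℕ in atTop, ((d : ℝ) * D ^ d + 1) / ε < (n : ℝ) :=
    tendsto_natCast_atTop_atTop.eventually_gt_atTop _
  filter_upwards [hev, eventually_ge_atTop (2 * k), eventually_ge_atTop (k + 1)] with n h1 h2 h3
  have hn0 : 0 < n := by omega
  have hn : (0 : ℝ) < n := by exact_mod_cast hn0
  rw [phihat_div n d k hn0]
  obtain ⟨h, hh1, hh2⟩ := H n D h3 hD1
  have e1 : (h : ℝ) * D ≤ 2 * fhat n d k := by exact_mod_cast hh1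
  have e2 : ((c : ℝ) * k * B + 1) * n ≤ c * B * (2 * fhat n d k) + (c * k * B + 1) * h +
      (d * D ^ d + 1) := by exact_mod_cast hh2
  have e3 : (fhat n d k : ℝ) ≤ k * n := by exact_mod_cast fhat_le_mul (by omega) hd h2
  rw [div_lt_iff₀ hε] at h1
  have hf0 : (0 : ℝ) ≤ fhat n d k := Nat.cast_nonneg _
  generalize (fhat n d k : ℝ) = f at *
  generalize (d : ℝ) * D ^ d + 1 = C at *
  set Q : ℝ := (c : ℝ) * B with hQ
  have hckB : (c : ℝ) * k * B + 1 = k * Q + 1 := by rw [hQ]; ring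
  rw [hckB] at hDε e2
  -- `(kQ+1) h ≤ ε n / 2`
  have e4 : (k * Q + 1) * h * 2 ≤ ε * n := by
    have h4 : (k * Q + 1) * h * 2 * D ≤ ε * n * D := by
      have h5 : (h : ℝ) * D ≤ 2 * (k * n) := by linarith
      have h6 : (0 : ℝ) ≤ k * Q + 1 := by positivity
      have h7 := mul_le_mul_of_nonneg_left h5 h6
      have h8 := mul_le_mul_of_nonneg_right hDε hn.le
      nlinarith
    exact le_of_mul_le_mul_right h4 hDr
  have hQ0 : 0 < Q := by linarith
  have hεn : 0 < ε * n := mul_pos hε hn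
  have e5 : (k * Q + 1) * n ≤ Q * (2 * f) + 2 * (ε * n) := by linarith
  have e6 : (1 : ℝ) / (2 * Q) - ε ≤ f / n - k / 2 := by
    have h4 : (1 : ℝ) / (2 * Q) - ε + k / 2 ≤ f / n := by
      rw [le_div_iff₀ hn]
      have h5 : (2 * Q) * (((1 : ℝ) / (2 * Q) - ε + k / 2) * n) ≤ (2 * Q) * f := by
        have h6 : (2 * Q) * (((1 : ℝ) / (2 * Q) - ε + k / 2) * n) =
            n - 2 * Q * ε * n + Q * k * n := by
          field_simp
        rw [h6]
        nlinarith [mul_le_mul_of_nonneg_right hcB (mul_nonneg hε.le hn.le)]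
      exact le_of_mul_le_mul_left h5 (by positivity)
    linarith
  exact e6

theorem up_lim {d k t B : ℕ} (hk : 1 ≤ k) (K : ℕ)
    (H : ∀ n, k ≤ n → (B + 1) * (2 * fhat n d k) ≤ (B + 1) * (k * n) + 2 * t * n + K) :
    Filter.limsup (fun n : ℕ => phihat n d k / n) Filter.atTop ≤ (t : ℝ) / (B + 1) := by
  refine le_of_forall_pos_le_add (fun ε hε => ?_)
  refine limsup_le_of_le bdd_below.isCoboundedUnder_le ?_
  have hev : ∀ᶠ n : ℕ in atTop, (K : ℝ) / ε < (n : ℝ) :=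
    tendsto_natCast_atTop_atTop.eventually_gt_atTop _
  filter_upwards [hev, eventually_ge_atTop k, eventually_gt_atTop 0] with n h1 h2 h3
  have hn : (0 : ℝ) < n := by exact_mod_cast h3
  rw [phihat_div n d k h3]
  have e1 : ((B : ℝ) + 1) * (2 * fhat n d k) ≤ (B + 1) * (k * n) + 2 * t * n + K := by
    exact_mod_cast H n h2
  rw [div_lt_iff₀ hε] at h1
  generalize (fhat n d k : ℝ) = f at *
  have hB1 : (1 : ℝ) ≤ (B : ℝ) + 1 := by
    have : (0 : ℝ) ≤ B := Nat.cast_nonneg B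
    linarith
  have hB0 : (0 : ℝ) < (B : ℝ) + 1 := by linarith
  have h4 : f / n ≤ (t : ℝ) / (B + 1) + ε + k / 2 := by
    rw [div_le_iff₀ hn]
    have h5 : (2 * ((B : ℝ) + 1)) * f ≤
        (2 * ((B : ℝ) + 1)) * (((t : ℝ) / (B + 1) + ε + k / 2) * n) := by
      have h6 : (2 * ((B : ℝ) + 1)) * (((t : ℝ) / (B + 1) + ε + k / 2) * n) =
          2 * t * n + 2 * (B + 1) * ε * n + (B + 1) * k * n := by
        field_simp
      rw [h6]
      nlinarith [mul_le_mul_of_nonneg_right hB1 (mul_nonneg hε.le hn.le), mul_pos hε hn]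
    exact le_of_mul_le_mul_left h5 (by positivity)
  linarith

end Pool.Agent.FTA
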