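import Pool.Agent.FTA.Lower
import Pool.Agent.FTA.Limit

/-!
# The lower bound for the lower limit, all diameters
-/

namespace Pool.Agent.FTA

open Pool.Agent.Helper68

theorem Bs_one_le (k s : ℕ) : 1 ≤ Bs k s := by
  have h : Bs k 0 ≤ Bs k s := by
    unfold Bs
    exact Finset.sum_le_sum_of_subset (by
      intro i hi
      simp only [Finset.mem_range] at hi ⊢
      omega)
  have h0 : Bs k 0 = 1 := by
    unfold Bs
    simp
  omega

/-- `d = 2 r` (or less) -/
theorem liminf_even {d k r : ℕ} (hk : 2 ≤ k) (hr : 2 ≤ r) (hd2 : 2 ≤ d) (hd : d ≤ 2 * r) :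
    (1 : ℝ) / (2 * Bs k (r - 2)) ≤
      Filter.liminf (fun n : ℕ => phihat n d k / n) Filter.atTop := by
  have h := low_lim (d := d) (k := k) (c := 1) (B := Bs k (r - 2)) hk (Bs_one_le _ _)
    (le_refl _) hd2 (by
      intro n D hn hD
      classical
      obtain ⟨G, h1, h2⟩ := exists_opt (n := n) (d := d) (k := k) (by omega)
      have h3 : G.edgeFinset.card = fhat n d k := by
        rw [← h2, ← SimpleGraph.coe_edgeFinset, Set.ncard_coe_finset]
      have h4 := lower_even (D := D) h1 hk hr hd (by simpa using hn) hD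
      have h5 := card_hubs_mul_le (G := G) D
      rw [h3] at h4 h5
      rw [Fintype.card_fin] at h4
      exact ⟨(hubs G D).card, h5, h4⟩)
  simpa using h

/-- `d = 2 r + 1` (or less) -/
theorem liminf_odd {d k r : ℕ} (hk : 2 ≤ k) (hr : 2 ≤ r) (hd2 : 2 ≤ d) (hd : d ≤ 2 * r + 1) :
    (1 : ℝ) / (4 * Bs k (r - 2)) ≤
      Filter.liminf (fun n : ℕ => phihat n d k / n) Filter.atTop := by
  have h := low_lim (d := d) (k := k) (c := 2) (B := Bs k (r - 2)) hk (Bs_one_le _ _)
    (by omega) hd2 (by
      intro n D hn hD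
      classical
      obtain ⟨G, h1, h2⟩ := exists_opt (n := n) (d := d) (k := k) (by omega)
      have h3 : G.edgeFinset.card = fhat n d k := by
        rw [← h2, ← SimpleGraph.coe_edgeFinset, Set.ncard_coe_finset]
      have h4 := lower_odd (D := D) h1 hk hr hd (by omega) (by simpa using hn) hD
      have h5 := card_hubs_mul_le (G := G) D
      rw [h3] at h4 h5
      rw [Fintype.card_fin] at h4
      exact ⟨(hubs G D).card, h5, h4⟩)
  have e : (2 : ℝ) * (((2 : ℕ) : ℝ) * (Bs k (r - 2) : ℕ)) = 4 * (Bs k (r - 2) : ℕ) := by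
    push_cast
    ring
  rw [e] at h
  exact h

end Pool.Agent.FTA
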