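import Pool.Agent.FTA.LPath
import Pool.Agent.FTA.LLayer

/-!
# The lower bound
-/

namespace Pool.Agent.FTA

open Pool.Agent.Helper68

variable {V : Type} [Fintype V] [DecidableEq V] {G : SimpleGraph V} [DecidableRel G.Adj]
  {H : Finset V}

theorem AA_low (s : ℕ) (u : V) : u ∉ AA G H s u := by
  unfold AA
  rw [Finset.mem_inter, SimpleGraph.mem_neighborFinset]
  exact fun h => G.loopless.irrefl u h.1

theorem card_insert_Ball {D d : ℕ} (hD1 : 1 ≤ D) (hD : ∀ x ∉ H, G.degree x ≤ D) (v : V) :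
    (insert v (Ball G H d v)).card ≤ d * D ^ d + 1 :=
  (Finset.card_insert_le _ _).trans (Nat.add_le_add_right (card_Ball_le hD1 hD d v) 1)

/-- all but few low vertices have many neighbours in the layers: even diameter -/
theorem even_count {d k r D : ℕ} (h : FaultTolerant G d k) (hk : 2 ≤ k) (hr : 2 ≤ r)
    (hd : d ≤ 2 * r) (hn : k + 1 ≤ Fintype.card V) (hD1 : 1 ≤ D)
    (hD : ∀ x ∉ H, G.degree x ≤ D) :
    k * Hᶜ.card ≤ k * (Us G H (r - 2)).card + EE G H k + k * (d * D ^ d + 1) := by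
  have hdeg : ∀ v, k ≤ G.degree v := fun v => h.le_degree (by omega) hn v
  by_cases hc : Hᶜ ⊆ Us G H (r - 2)
  · have h1 := Nat.mul_le_mul_left k (Finset.card_le_card hc)
    omega
  · obtain ⟨v0, hv0, hv0'⟩ := Finset.not_subset.mp hc
    have hv0H : v0 ∉ H := Finset.mem_compl.mp hv0
    have hbig : ∀ u ∈ Hᶜ, u ∉ insert v0 (Ball G H d v0) → k ≤ (AA G H (r - 2) u).card := by
      intro u hu hub
      rw [Finset.mem_insert, not_or] at hub
      have huH : u ∉ H := Finset.mem_compl.mp hu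
      by_contra hcon
      have hv0S : v0 ∉ AA G H (r - 2) u := by
        unfold AA
        rw [Finset.mem_inter, Finset.mem_union]
        rintro ⟨-, h1 | h1⟩
        · exact hv0H h1
        · exact hv0' h1
      obtain ⟨ℓ, hℓ, p, hp⟩ := h.path (by omega) hn (S := AA G H (r - 2) u) (by omega)
        (u := v0) (v := u) hv0S (AA_low _ u)
      rcases path_cases' hp hℓ hv0H huH hub.1 with h1 | ⟨t, t', h1, h2, h3, h4, h5, h6, h7, h8, h9⟩
      · exact hub.2 h1
      · have e1 := first_ge hr hp h1 h6 h4 h8 hv0'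
        have e2 := first_ge' hr hp.reverse h2 h7 h5 h9 (le_refl _)
        omega
    have h1 : ∑ u ∈ Hᶜ, k ≤ ∑ u ∈ Hᶜ, (AA G H (r - 2) u).card +
        ∑ u ∈ insert v0 (Ball G H d v0), k := by
      calc ∑ u ∈ Hᶜ, k = ∑ u ∈ Hᶜ.filter (fun u => u ∉ insert v0 (Ball G H d v0)), k +
            ∑ u ∈ Hᶜ.filter (fun u => ¬ u ∉ insert v0 (Ball G H d v0)), k :=
            (Finset.sum_filter_add_sum_filter_not _ _ _).symm
        _ ≤ _ := by
            refine Nat.add_le_add ?_ ?_
            · refine (Finset.sum_le_sum (g := fun u => (AA G H (r - 2) u).card) ?_).trans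
                (Finset.sum_le_sum_of_subset (Finset.filter_subset _ _))
              intro u hu
              rw [Finset.mem_filter] at hu
              exact hbig u hu.1 hu.2
            · refine Finset.sum_le_sum_of_subset ?_
              intro u hu
              rw [Finset.mem_filter, not_not] at hu
              exact hu.2
    rw [Finset.sum_const, Finset.sum_const, smul_eq_mul, smul_eq_mul] at h1
    have h2 := sum_AA_le (G := G) (H := H) hdeg (r - 2)
    have h3 := Nat.mul_le_mul_right k (card_insert_Ball (d := d) hD1 hD v0)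
    rw [mul_comm k, mul_comm k (d * D ^ d + 1)]
    omega

theorem low_mem_Ball {d : ℕ} (hd : 1 ≤ d) {u v : V} (hu : u ∉ H) (hv : v ∉ H)
    (h : G.Adj u v) : v ∈ Ball G H d u := by
  unfold Ball
  rw [Finset.mem_erase, Finset.mem_sdiff, Finset.mem_biUnion]
  refine ⟨h.ne', ⟨1, Finset.mem_Icc.mpr ⟨le_refl _, hd⟩, ?_⟩, hv⟩
  rw [R_one hu]
  simpa using h

/-- odd diameter -/
theorem odd_count {d k r D : ℕ} (h : FaultTolerant G d k) (hk : 2 ≤ k) (hr : 2 ≤ r)
    (hd : d ≤ 2 * r + 1) (hd1 : 1 ≤ d) (hn : k + 1 ≤ Fintype.card V) (hD1 : 1 ≤ D)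
    (hD : ∀ x ∉ H, G.degree x ≤ D) :
    k * Hᶜ.card ≤ 2 * (k * (Us G H (r - 2)).card + EE G H k) + k * (d * D ^ d + 1) := by
  have hdeg : ∀ v, k ≤ G.degree v := fun v => h.le_degree (by omega) hn v
  -- the bad vertices
  set bad := Hᶜ.filter (fun u => 2 * (AA G H (r - 2) u).card < k) with hbad
  have hcard : bad.card ≤ d * D ^ d + 1 := by
    rcases bad.eq_empty_or_nonempty with h0 | ⟨u0, hu0⟩
    · rw [h0, Finset.card_empty]
      exact Nat.zero_le _
    · refine (Finset.card_le_card ?_).trans (card_insert_Ball (d := d) hD1 hD u0)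
      intro v hv
      by_contra hvb
      rw [Finset.mem_insert, not_or] at hvb
      rw [hbad, Finset.mem_filter, Finset.mem_compl] at hu0 hv
      have hAu : v ∉ AA G H (r - 2) u0 := by
        intro h1
        unfold AA at h1
        rw [Finset.mem_inter, SimpleGraph.mem_neighborFinset] at h1
        exact hvb.2 (low_mem_Ball hd1 hu0.1 hv.1 h1.1)
      have hAv : u0 ∉ AA G H (r - 2) v := by
        intro h1
        unfold AA at h1
        rw [Finset.mem_inter, SimpleGraph.mem_neighborFinset] at h1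
        exact hvb.2 (low_mem_Ball hd1 hu0.1 hv.1 h1.1.symm)
      have hS : (AA G H (r - 2) u0 ∪ AA G H (r - 2) v).card ≤ k - 1 := by
        have := Finset.card_union_le (AA G H (r - 2) u0) (AA G H (r - 2) v)
        omega
      obtain ⟨ℓ, hℓ, p, hp⟩ := h.path (by omega) hn hS (u := u0) (v := v)
        (by rw [Finset.mem_union, not_or]; exact ⟨AA_low _ u0, hAv⟩)
        (by rw [Finset.mem_union, not_or]; exact ⟨hAu, AA_low _ v⟩)
      rcases path_cases' hp hℓ hu0.1 hv.1 hvb.1 with h1 |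
        ⟨t, t', h1, h2, h3, h4, h5, h6, h7, h8, h9⟩
      · exact hvb.2 h1
      · have e1 := first_ge' hr hp h1 h6 h4 h8 Finset.subset_union_left
        have e2 := first_ge' hr hp.reverse h2 h7 h5 h9 Finset.subset_union_right
        omega
  have h1 : ∑ u ∈ Hᶜ, k ≤ ∑ u ∈ Hᶜ, 2 * (AA G H (r - 2) u).card + ∑ u ∈ bad, k := by
    rw [hbad, Finset.sum_filter, ← Finset.sum_add_distrib]
    refine Finset.sum_le_sum fun u _ => ?_
    split_ifs with h4
    · omega
    · omega
  rw [Finset.sum_const, Finset.sum_const, smul_eq_mul, smul_eq_mul, ← Finset.mul_sum] at h1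
  have h2 := sum_AA_le (G := G) (H := H) hdeg (r - 2)
  have h3 := Nat.mul_le_mul_right k hcard
  rw [mul_comm k, mul_comm k (d * D ^ d + 1)]
  omega

theorem final_arith {c k B L J E e β U : ℕ} (hk : 2 ≤ k)
    (h1 : k * L ≤ c * (k * U + E) + k * β) (h2 : k * U + E ≤ k * B * (J + E))
    (h3 : k * L + (J + E) ≤ 2 * e) : (c * k * B + 1) * L ≤ c * B * (2 * e) + β := by
  have h4 : k * L ≤ k * (c * B * (J + E) + β) := by
    calc k * L ≤ c * (k * U + E) + k * β := h1
      _ ≤ c * (k * B * (J + E)) + k * β := Nat.add_le_add_right (Nat.mul_le_mul_left _ h2) _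
      _ = _ := by ring
  have h5 : L ≤ c * B * (J + E) + β := Nat.le_of_mul_le_mul_left h4 (by omega)
  have h6 : c * B * (k * L + (J + E)) ≤ c * B * (2 * e) := Nat.mul_le_mul_left _ h3
  calc (c * k * B + 1) * L = c * B * (k * L) + L := by ring
    _ ≤ c * B * (k * L) + (c * B * (J + E) + β) := Nat.add_le_add_left h5 _
    _ = c * B * (k * L + (J + E)) + β := by ring
    _ ≤ _ := Nat.add_le_add_right h6 _

theorem lower_even {d k r D : ℕ} (h : FaultTolerant G d k) (hk : 2 ≤ k) (hr : 2 ≤ r)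
    (hd : d ≤ 2 * r) (hn : k + 1 ≤ Fintype.card V) (hD : 1 ≤ D) :
    (1 * k * Bs k (r - 2) + 1) * Fintype.card V ≤ 1 * Bs k (r - 2) * (2 * G.edgeFinset.card) +
      (1 * k * Bs k (r - 2) + 1) * (hubs G D).card + (d * D ^ d + 1) := by
  have hdeg : ∀ v, k ≤ G.degree v := fun v => h.le_degree (by omega) hn v
  have h1 := even_count (H := hubs G D) h hk hr hd hn hD (fun x hx => degree_le_of_notMem_hubs hx)
  have h2 := layer_bound (H := hubs G D) hk hdeg (r - 2)
  have h3 := two_e_ge (H := hubs G D) hdeg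
  have h4 := final_arith (c := 1) hk (by rw [one_mul]; exact h1) h2 h3
  have h5 : (hubs G D)ᶜ.card + (hubs G D).card = Fintype.card V := Finset.card_compl_add_card _
  rw [← h5, mul_add]
  omega

theorem lower_odd {d k r D : ℕ} (h : FaultTolerant G d k) (hk : 2 ≤ k) (hr : 2 ≤ r)
    (hd : d ≤ 2 * r + 1) (hd1 : 1 ≤ d) (hn : k + 1 ≤ Fintype.card V) (hD : 1 ≤ D) :
    (2 * k * Bs k (r - 2) + 1) * Fintype.card V ≤ 2 * Bs k (r - 2) * (2 * G.edgeFinset.card) +
      (2 * k * Bs k (r - 2) + 1) * (hubs G D).card + (d * D ^ d + 1) := by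
  have hdeg : ∀ v, k ≤ G.degree v := fun v => h.le_degree (by omega) hn v
  have h1 := odd_count (H := hubs G D) h hk hr hd hd1 hn hD
    (fun x hx => degree_le_of_notMem_hubs hx)
  have h2 := layer_bound (H := hubs G D) hk hdeg (r - 2)
  have h3 := two_e_ge (H := hubs G D) hdeg
  have h4 := final_arith (c := 2) hk h1 h2 h3
  have h5 : (hubs G D)ᶜ.card + (hubs G D).card = Fintype.card V := Finset.card_compl_add_card _
  rw [← h5, mul_add]
  omega

end Pool.Agent.FTA
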