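import Pool.Agent.FTA.Words

/-!
# Membership lemmas
-/

namespace Pool.Agent.FTA

variable {k t : ℕ}

theorem mem_wd' {a : Fin k} {j : ℕ} : ∀ {l : List (Fin k)}, l ∈ wd k a j ↔
    l.length = j ∧ ∀ x ∈ l, x ≠ a := by
  induction j with
  | zero =>
    intro l
    simp only [wd, Finset.mem_singleton]
    constructor
    · rintro rfl
      simp
    · rintro ⟨h, -⟩
      exact List.eq_nil_of_length_eq_zero h
  | succ j ih =>
    intro l
    simp only [wd, Finset.mem_image, Finset.mem_product, Finset.mem_erase, Finset.mem_univ,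
      and_true, Prod.exists]
    constructor
    · rintro ⟨b, l', ⟨hb, hl'⟩, rfl⟩
      rw [ih] at hl'
      refine ⟨by simp [hl'.1], ?_⟩
      intro x hx
      rw [List.mem_cons] at hx
      rcases hx with rfl | hx
      · exact hb
      · exact hl'.2 x hx
    · rintro ⟨h1, h2⟩
      cases l with
      | nil => simp at h1
      | cons b l' =>
        refine ⟨b, l', ⟨h2 b (by simp), ih.mpr ⟨by simpa using h1, fun x hx => h2 x (by simp [hx])⟩⟩,
          rfl⟩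

theorem mem_tv' {a : Fin k} {h : ℕ} {l : List (Fin k)} : l ∈ tv k a h ↔
    l.length ≤ h ∧ ∀ x ∈ l, x ≠ a := by
  unfold tv
  rw [Finset.mem_biUnion]
  constructor
  · rintro ⟨j, hj, hl⟩
    rw [Finset.mem_range] at hj
    rw [mem_wd'] at hl
    exact ⟨by omega, hl.2⟩
  · rintro ⟨h1, h2⟩
    exact ⟨l.length, Finset.mem_range.mpr (by omega), mem_wd'.mpr ⟨rfl, h2⟩⟩

theorem mem_cells' (ht : 2 ≤ t) {x : Fin k × List (Fin k)} : x ∈ cells k t ↔
    x.2.length + 2 ≤ t ∧ ∀ y ∈ x.2, y ≠ x.1 := by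
  obtain ⟨c, q⟩ := x
  unfold cells
  simp only [Finset.mem_biUnion, Finset.mem_univ, true_and, Finset.mem_image, Prod.mk.injEq]
  constructor
  · rintro ⟨c', q', h, rfl, rfl⟩
    rw [mem_tv'] at h
    exact ⟨by omega, h.2⟩
  · rintro ⟨h1, h2⟩
    exact ⟨c, q, mem_tv'.mpr ⟨by omega, h2⟩, rfl, rfl⟩

theorem mem_kinds {κ : Bool} {h : ℕ} : (κ, h) ∈ kinds t ↔
    (κ = false ∧ h + 2 ≤ t) ∨ (κ = true ∧ 1 ≤ h ∧ h + 1 ≤ t) := by
  unfold kinds
  simp only [Finset.mem_union, Finset.mem_image, Finset.mem_range, Prod.mk.injEq]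
  constructor
  · rintro (⟨h', h1, rfl, rfl⟩ | ⟨h', h1, rfl, rfl⟩)
    · exact Or.inl ⟨rfl, by omega⟩
    · exact Or.inr ⟨rfl, by omega, by omega⟩
  · rintro (⟨rfl, h1⟩ | ⟨rfl, h1, h2⟩)
    · exact Or.inl ⟨h, by omega, rfl, rfl⟩
    · exact Or.inr ⟨h - 1, by omega, rfl, by omega⟩

theorem mem_blk' {a : Fin k} {κ : Bool} {h : ℕ} {l : List (Fin k)} :
    ((a, (κ, h), l) : TV k) ∈ blk k t ↔
      ((κ = false ∧ h + 2 ≤ t) ∨ (κ = true ∧ 1 ≤ h ∧ h + 1 ≤ t)) ∧ l.length ≤ h ∧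
        ∀ x ∈ l, x ≠ a := by
  unfold blk
  simp only [Finset.mem_biUnion, Finset.mem_product, Finset.mem_univ, true_and, Finset.mem_image]
  constructor
  · rintro ⟨⟨a', κ', h'⟩, hκ, l', hl', heq⟩
    simp only [Prod.mk.injEq] at heq
    obtain ⟨rfl, ⟨rfl, rfl⟩, rfl⟩ := heq
    exact ⟨mem_kinds.mp hκ, mem_tv'.mp hl'⟩
  · rintro ⟨hκ, hl⟩
    exact ⟨(a, (κ, h)), mem_kinds.mpr hκ, l, mem_tv'.mpr hl, rfl⟩

theorem mem_mem_blk (ht : 2 ≤ t) {x : Fin k × List (Fin k)} (hx : x ∈ cells k t) (a : Fin k) :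
    mem k t x a ∈ blk k t := by
  rw [mem_cells' ht] at hx
  unfold mem
  rw [mem_blk']
  refine ⟨?_, le_refl _, mw_ne hx.2 a⟩
  by_cases h : a = x.1
  · left
    subst h
    rw [mw_self]
    exact ⟨by simp, hx.1⟩
  · right
    refine ⟨by simp [h], mw_length_pos hx.1 h, ?_⟩
    have := mw_length_le hx.1 a
    omega

theorem exists_cell' (ht : 2 ≤ t) {x : TV k} (hx : x ∈ blk k t) (hl : x.2.2.length = x.2.1.2) :
    ∃ ξ ∈ cells k t, mem k t ξ x.1 = x := by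
  obtain ⟨a, ⟨κ, h⟩, l⟩ := x
  rw [mem_blk'] at hx
  obtain ⟨ξ, h1, h2, h3⟩ := exists_cell hx.1 hl hx.2.2
  exact ⟨ξ, (mem_cells' ht).mpr ⟨h1, h2⟩, h3⟩

theorem blk_suffix {a : Fin k} {κh : Bool × ℕ} {l l' : List (Fin k)}
    (h : ((a, κh, l) : TV k) ∈ blk k t) (hs : l' <:+ l) : ((a, κh, l') : TV k) ∈ blk k t := by
  obtain ⟨κ, h'⟩ := κh
  rw [mem_blk'] at h ⊢
  exact ⟨h.1, hs.length_le.trans h.2.1, fun x hx => h.2.2 x (hs.subset hx)⟩

theorem blk_replicate {a b : Fin k} {κh : Bool × ℕ} {l : List (Fin k)} {j : ℕ}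
    (h : ((a, κh, l) : TV k) ∈ blk k t) (hb : b ≠ a) (hj : l.length + j ≤ κh.2) :
    ((a, κh, List.replicate j b ++ l) : TV k) ∈ blk k t := by
  obtain ⟨κ, h'⟩ := κh
  rw [mem_blk'] at h ⊢
  refine ⟨h.1, ?_, ?_⟩
  · rw [List.length_append, List.length_replicate]
    dsimp only at hj
    omega
  · intro x hx
    rw [List.mem_append] at hx
    rcases hx with hx | hx
    · rw [List.eq_of_mem_replicate hx]
      exact hb
    · exact h.2.2 x hx

end Pool.Agent.FTA
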