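import Pool.Agent.FTA.Defs

/-!
# Words and cells
-/

namespace Pool.Agent.FTA

variable {k t : ℕ}

theorem mw_self (x : Fin k × List (Fin k)) : mw k t x x.1 = x.2 := by
  simp [mw]

theorem mw_of_ne {x : Fin k × List (Fin k)} {a : Fin k} (h : a ≠ x.1) :
    mw k t x a = List.replicate (t - 1 - x.2.length) x.1 ++
      (x.2.dropWhile (fun b => b = a)).map (Equiv.swap a x.1) := by
  simp [mw, h]

theorem mw_ne {x : Fin k × List (Fin k)} (hx : ∀ y ∈ x.2, y ≠ x.1) (a : Fin k) :
    ∀ y ∈ mw k t x a, y ≠ a := by
  by_cases h : a = x.1
  · subst h
    rw [mw_self]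
    exact hx
  · rw [mw_of_ne h]
    intro y hy
    rw [List.mem_append] at hy
    rcases hy with hy | hy
    · rw [List.eq_of_mem_replicate hy]
      exact fun h' => h h'.symm
    · rw [List.mem_map] at hy
      obtain ⟨z, hz, rfl⟩ := hy
      have hz' : z ∈ x.2 := (List.dropWhile_suffix _).subset hz
      intro h'
      have : z = x.1 := by
        have h2 := (Equiv.swap_apply_eq_iff (x := a) (y := x.1) (z := z) (w := a)).mp h'
        rw [h2, Equiv.swap_apply_left]
      exact hx z hz' this

theorem mw_length_le {x : Fin k × List (Fin k)} (hq : x.2.length + 2 ≤ t) (a : Fin k) :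
    (mw k t x a).length ≤ t - 1 := by
  by_cases h : a = x.1
  · subst h
    rw [mw_self]
    omega
  · rw [mw_of_ne h, List.length_append, List.length_replicate, List.length_map]
    have := (List.dropWhile_sublist (fun b => decide (b = a)) (l := x.2)).length_le
    omega

theorem mw_length_pos {x : Fin k × List (Fin k)} (hq : x.2.length + 2 ≤ t) {a : Fin k}
    (h : a ≠ x.1) : 1 ≤ (mw k t x a).length := by
  rw [mw_of_ne h, List.length_append, List.length_replicate, List.length_map]
  omega

theorem run_le {α : Type*} {c : α} : ∀ (n m : ℕ) (X l : List α),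
    (∀ y, X.head? = some y → y ≠ c) → List.replicate n c ++ X = List.replicate m c ++ l → m ≤ n
  | _, 0, _, _, _, _ => Nat.zero_le _
  | 0, m + 1, X, l, hX, h => by
    exfalso
    rw [List.replicate_zero, List.nil_append, List.replicate_succ, List.cons_append] at h
    exact hX c (by rw [h]; rfl) rfl
  | n + 1, m + 1, X, l, hX, h => by
    rw [List.replicate_succ, List.replicate_succ, List.cons_append, List.cons_append,
      List.cons.injEq] at h
    exact Nat.succ_le_succ (run_le n m X l hX h.2)

theorem head_dropWhile_ne {α : Type*} [DecidableEq α] (a : α) (q : List α) (y : α)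
    (h : (q.dropWhile (fun b => b = a)).head? = some y) : y ≠ a := by
  induction q with
  | nil => simp at h
  | cons z q ih =>
    rw [List.dropWhile_cons] at h
    split_ifs at h with h1
    · exact ih h
    · rw [List.head?_cons, Option.some.injEq] at h
      subst h
      simpa using h1

/-- the cell property -/
theorem cell_height {x : Fin k × List (Fin k)} (hq : x.2.length + 2 ≤ t)
    (hx : ∀ y ∈ x.2, y ≠ x.1) {a b : Fin k} {m : ℕ} {l : List (Fin k)} (hm : 1 ≤ m)
    (h : mw k t x a = List.replicate m b ++ l) : (mw k t x b).length + m + 1 ≤ t := by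
  by_cases ha : a = x.1
  · subst ha
    rw [mw_self] at h
    have hb : b ≠ x.1 := by
      apply hx b
      rw [h, List.mem_append]
      left
      rw [List.mem_replicate]
      exact ⟨by omega, rfl⟩
    rw [mw_of_ne hb, List.length_append, List.length_replicate, List.length_map]
    have h1 : (x.2.dropWhile (fun z => z = b)).length ≤ l.length := by
      rw [h]
      clear h hm
      induction m with
      | zero => simpa using (List.dropWhile_sublist (fun z => decide (z = b)) (l := l)).length_le
      | succ m ih =>
        rw [List.replicate_succ, List.cons_append, List.dropWhile_cons]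
        simpa using ih
    have h2 : x.2.length = m + l.length := by
      rw [h, List.length_append, List.length_replicate]
    omega
  · rw [mw_of_ne ha] at h
    have hb : b = x.1 := by
      obtain ⟨n, hn⟩ : ∃ n, t - 1 - x.2.length = n + 1 := ⟨t - 1 - x.2.length - 1, by omega⟩
      obtain ⟨m', rfl⟩ : ∃ m', m = m' + 1 := ⟨m - 1, by omega⟩
      rw [hn, List.replicate_succ, List.replicate_succ, List.cons_append, List.cons_append,
        List.cons.injEq] at h
      exact h.1.symm
    subst hb
    have h1 := run_le _ _ _ _ ?_ h
    · rw [mw_self]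
      omega
    · intro y hy
      rw [List.head?_map, Option.map_eq_some_iff] at hy
      obtain ⟨z, hz, rfl⟩ := hy
      have h2 := head_dropWhile_ne a x.2 z hz
      intro h3
      apply h2
      have h4 := (Equiv.swap_apply_eq_iff (x := a) (y := x.1) (z := z) (w := x.1)).mp h3
      rw [h4, Equiv.swap_apply_right]

theorem dropWhile_eq_self_of_head {α : Type*} [DecidableEq α] (a : α) (q : List α)
    (h : ∀ y, q.head? = some y → y ≠ a) : q.dropWhile (fun b => b = a) = q := by
  cases q with
  | nil => rfl
  | cons z q =>
    rw [List.dropWhile_cons]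
    have := h z rfl
    simp [this]

/-- every full word is a member of a cell -/
theorem exists_cell {a : Fin k} {κ : Bool} {h : ℕ} {p : List (Fin k)}
    (hκ : (κ = false ∧ h + 2 ≤ t) ∨ (κ = true ∧ 1 ≤ h ∧ h + 1 ≤ t)) (hp : p.length = h)
    (hpa : ∀ y ∈ p, y ≠ a) : ∃ x : Fin k × List (Fin k), x.2.length + 2 ≤ t ∧
      (∀ y ∈ x.2, y ≠ x.1) ∧ mem k t x a = (a, (κ, h), p) := by
  rcases hκ with ⟨rfl, h1⟩ | ⟨rfl, h1, h2⟩
  · refine ⟨(a, p), by simpa [hp] using h1, hpa, ?_⟩
    simp [mem, mw, hp]
  · obtain ⟨c, p0, rfl⟩ : ∃ c p0, p = c :: p0 := by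
      cases p with
      | nil => simp at hp; omega
      | cons c p0 => exact ⟨c, p0, rfl⟩
    have hca : c ≠ a := hpa c (by simp)
    -- the run
    obtain ⟨m, p', hm, hpp, hhead⟩ : ∃ m p', 1 ≤ m ∧ c :: p0 = List.replicate m c ++ p' ∧
        ∀ y, p'.head? = some y → y ≠ c := by
      refine ⟨((c :: p0).takeWhile (fun b => b = c)).length,
        (c :: p0).dropWhile (fun b => b = c), ?_, ?_, ?_⟩
      · rw [List.takeWhile_cons]
        simp
      · have h3 : (c :: p0).takeWhile (fun b => b = c) =
            List.replicate ((c :: p0).takeWhile (fun b => b = c)).length c := by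
          rw [List.eq_replicate_iff]
          refine ⟨rfl, fun y hy => ?_⟩
          simpa using List.mem_takeWhile_imp hy
        conv_lhs => rw [← List.takeWhile_append_dropWhile (p := fun b => decide (b = c)) (l := c :: p0)]
        rw [← h3]
      · intro y hy
        exact head_dropWhile_ne c _ y hy
    rw [hpp] at hpa hp ⊢
    have hp'a : ∀ y ∈ p', y ≠ a := fun y hy => hpa y (List.mem_append_right _ hy)
    rw [List.length_append, List.length_replicate] at hp
    have hqlen : (List.replicate (t - 1 - h) a ++ p'.map (Equiv.swap a c)).length = t - 1 - m := by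
      rw [List.length_append, List.length_replicate, List.length_map]
      omega
    have hdrop : (List.replicate (t - 1 - h) a ++ p'.map (Equiv.swap a c)).dropWhile
        (fun b => b = a) = p'.map (Equiv.swap a c) := by
      have h4 : (p'.map (Equiv.swap a c)).dropWhile (fun b => b = a) =
          p'.map (Equiv.swap a c) := by
        apply dropWhile_eq_self_of_head
        intro y hy
        rw [List.head?_map, Option.map_eq_some_iff] at hy
        obtain ⟨z, hz, rfl⟩ := hy
        intro h3
        apply hhead z hz
        have h4 := (Equiv.swap_apply_eq_iff (x := a) (y := c) (z := z) (w := a)).mp h3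
        rw [h4, Equiv.swap_apply_left]
      generalize t - 1 - h = n
      induction n with
      | zero => simpa using h4
      | succ n ih =>
        rw [List.replicate_succ, List.cons_append, List.dropWhile_cons]
        simpa using ih
    refine ⟨(c, List.replicate (t - 1 - h) a ++ p'.map (Equiv.swap a c)), ?_, ?_, ?_⟩
    · rw [hqlen]
      omega
    · intro y hy
      rw [List.mem_append] at hy
      rcases hy with hy | hy
      · rw [List.eq_of_mem_replicate hy]
        exact fun h' => hca h'.symm
      · rw [List.mem_map] at hy
        obtain ⟨z, hz, rfl⟩ := hy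
        intro h3
        apply hp'a z hz
        have h4 := (Equiv.swap_apply_eq_iff (x := a) (y := c) (z := z) (w := c)).mp h3
        rw [h4, Equiv.swap_apply_right]
    · have hac : a ≠ c := fun h' => hca h'.symm
      have hmw : mw k t (c, List.replicate (t - 1 - h) a ++ p'.map (Equiv.swap a c)) a =
          List.replicate m c ++ p' := by
        rw [mw_of_ne (by exact hac)]
        simp only [hqlen, hdrop, List.map_map]
        have h5 : t - 1 - (t - 1 - m) = m := by omega
        rw [h5]
        congr 1
        have h6 : (⇑(Equiv.swap a c) ∘ ⇑(Equiv.swap a c)) = id := by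
          funext z
          simp
        rw [h6, List.map_id]
      unfold mem
      rw [hmw]
      simp only [hac, decide_false, Bool.not_false, List.length_append, List.length_replicate]
      rw [hp]

end Pool.Agent.FTA
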